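import Pool.Agent.W_868bb7_h16.ClassC

/-!
# Comparability of systems, the core of H1
-/

open Equiv Finset

namespace T7

variable {K : Type*} [Field K] [CharZero K] {δ : K}

theorem Class_arith {a₀ c₀ a c : ℕ} (h₀ : (a₀ : K) = c₀ - 1 + δ) (h : (a : K) = c - 1 + δ)
    (hle : a₀ * c₀ ≤ a * c) (h1 : 1 ≤ a₀) (h2 : 1 ≤ c₀) : a₀ ≤ a ∧ c₀ ≤ c := by
  have e : a + c₀ = a₀ + c := by
    have h3 : (a : K) + c₀ = a₀ + c := by rw [h₀, h]; ring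
    exact_mod_cast h3
  have hc : c₀ ≤ c := by
    by_contra hlt
    push Not at hlt
    have ha : a < a₀ := by omega
    have h3 : a * c ≤ a * c₀ := Nat.mul_le_mul_left _ hlt.le
    have h4 : a * c₀ < a₀ * c₀ := Nat.mul_lt_mul_of_pos_right ha h2
    omega
  exact ⟨by omega, hc⟩

/-- CORE OF H1: if the system is non-zero in some degree `≤ A c`, `A = c - 1 + δ`, then it
contains all vectors of type `(A, c)`. -/
theorem Sys.mem_of_type (I : Sys K δ) {α₀ : Type} [Finite α₀] {f₀ : PM α₀ → K}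
    (h₀ : f₀ ∈ I.R α₀) (hf₀ : f₀ ≠ 0) {A c : ℕ} (hA : (A : K) = c - 1 + δ)
    (hcard : Nat.card α₀ ≤ A * c) {v : PM (Fin A × Fin c) → K} (hv : IsType Prod.fst v) :
    v ∈ I.R (Fin A × Fin c) := by
  obtain ⟨a, b, ha, hb, hab, hle, -, w, hw, hw0, hwt⟩ := I.first h₀ hf₀
  obtain ⟨h1, h2⟩ := Class_arith hab hA (hle.trans hcard) ha hb
  exact I.up_type h1 h2 hw hw0 hwt hv

theorem Class_aux (I J : Sys K δ) {a₁ c₁ a₂ c₂ : ℕ} (ha₁ : 1 ≤ a₁) (hc₁ : 1 ≤ c₁)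
    (h₁ : (a₁ : K) = c₁ - 1 + δ) (ha : a₁ ≤ a₂) (hc : c₁ ≤ c₂)
    (hI : ∀ (β : Type) [Finite β], Nat.card β < a₁ * c₁ → I.R β = ⊥)
    (hJ : ∀ (β : Type) [Finite β], Nat.card β < a₂ * c₂ → J.R β = ⊥)
    {w : PM (Fin a₁ × Fin c₁) → K} (hw : w ∈ I.R (Fin a₁ × Fin c₁)) (hw0 : w ≠ 0)
    (hwt : IsType (Prod.fst : Fin a₁ × Fin c₁ → Fin a₁) w) :
    ∀ (α : Type) [Finite α], J.R α ≤ I.R α := by
  by_contra hcon
  push Not at hcon
  obtain ⟨α, hα, hne⟩ := hcon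
  obtain ⟨a, c, -, -, hac, -, v, hv, hvI, hvt⟩ := Sys.key I (Sys.sup I J)
    (fun β _ => (le_sup_left : I.R β ≤ I.R β ⊔ J.R β))
    ⟨α, hα, fun hle => hne ((le_sup_right : J.R α ≤ I.R α ⊔ J.R α).trans hle)⟩
  have hcard : a₁ * c₁ ≤ a * c := by
    by_contra hlt
    push Not at hlt
    have hk : Nat.card (Fin a × Fin c) = a * c := by
      rw [Nat.card_prod, Nat.card_fin, Nat.card_fin]
    have h1 : I.R (Fin a × Fin c) = ⊥ := hI _ (by rw [hk]; exact hlt)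
    have h2 : J.R (Fin a × Fin c) = ⊥ := hJ _ (by
      rw [hk]; exact hlt.trans_le (Nat.mul_le_mul ha hc))
    have h3 : v ∈ I.R (Fin a × Fin c) ⊔ J.R (Fin a × Fin c) := hv
    rw [h2, sup_bot_eq] at h3
    exact hvI h3
  obtain ⟨h1, h2⟩ := Class_arith h₁ hac hcard ha₁ hc₁
  exact hvI (I.up_type h1 h2 hw hw0 hwt hvt)

/-- COMPARABILITY of two systems with the same parameter -/
theorem Sys.compare (I J : Sys K δ) :
    (∀ (α : Type) [Finite α], I.R α ≤ J.R α) ∨ (∀ (α : Type) [Finite α], J.R α ≤ I.R α) := by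
  by_cases hI : ∀ (α : Type) [Finite α], I.R α = ⊥
  · exact Or.inl fun α _ => by rw [hI α]; exact bot_le
  by_cases hJ : ∀ (α : Type) [Finite α], J.R α = ⊥
  · exact Or.inr fun α _ => by rw [hJ α]; exact bot_le
  push Not at hI hJ
  obtain ⟨α, hα, hI⟩ := hI
  obtain ⟨β, hβ, hJ⟩ := hJ
  obtain ⟨f, hf, hf0⟩ := Submodule.exists_mem_ne_zero_of_ne_bot hI
  obtain ⟨g, hg, hg0⟩ := Submodule.exists_mem_ne_zero_of_ne_bot hJ
  obtain ⟨a₁, c₁, ha₁, hc₁, h₁, -, hI1, w, hw, hw0, hwt⟩ := I.first hf hf0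
  obtain ⟨a₂, c₂, ha₂, hc₂, h₂, -, hJ1, x, hx, hx0, hxt⟩ := J.first hg hg0
  have e : a₂ + c₁ = a₁ + c₂ := by
    have h3 : (a₂ : K) + c₁ = a₁ + c₂ := by rw [h₁, h₂]; ring
    exact_mod_cast h3
  rcases le_total c₁ c₂ with hc | hc
  · exact Or.inr (Class_aux I J ha₁ hc₁ h₁ (by omega) hc hI1 hJ1 hw hw0 hwt)
  · exact Or.inl (Class_aux J I ha₂ hc₂ h₂ (by omega) hc hJ1 hI1 hx hx0 hxt)

end T7
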