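import Pool.Agent.W_868bb7_h16.Col

/-!
# More columns
-/

open Equiv Finset

namespace T7

variable {K : Type*} [Field K] [CharZero K] {δ : K}

theorem ClassA_even {a c : ℕ} {v : PM (Fin a × Fin c) → K} (hv : IsType Prod.fst v)
    (h0 : v ≠ 0) (s : Fin a) : Even c := by
  have h := hv.even_card h0 s
  have h1 : (univ.filter (fun x : Fin a × Fin c => x.1 = s)).card = c := by
    have h2 : univ.filter (fun x : Fin a × Fin c => x.1 = s) =
        (univ : Finset (Fin c)).map ⟨fun y => (s, y), fun y z h => (Prod.mk.inj h).2⟩ := by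
      ext ⟨x, y⟩
      simp only [mem_filter, mem_univ, true_and, mem_map, Function.Embedding.coeFn_mk,
        Prod.mk.injEq, exists_eq_right]
      exact eq_comm
    rw [h2, card_map, card_univ, Fintype.card_fin]
  rwa [h1] at h

omit [CharZero K] in
theorem ClassA_ne {α β : Type*} (e : α ≃ β) {v : PM α → K} (h : v ≠ 0) : tr e v ≠ 0 := by
  rwa [Ne, LinearEquiv.map_eq_zero_iff]

/-- more columns (the same number of rows) -/
theorem Sys.up_col (I : Sys K δ) {a c₀ c : ℕ} (hc : c₀ ≤ c) {v₀ : PM (Fin a × Fin c₀) → K}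
    (h₀ : v₀ ∈ I.R (Fin a × Fin c₀)) (h0 : v₀ ≠ 0) (ht : IsType Prod.fst v₀)
    {v : PM (Fin a × Fin c) → K} (hv : IsType Prod.fst v) : v ∈ I.R (Fin a × Fin c) := by
  by_cases hv0 : v = 0
  · rw [hv0]
    exact Submodule.zero_mem _
  rcases Nat.eq_zero_or_pos a with rfl | ha
  · exfalso
    rw [I.zero] at h₀
    exact h0 ((Submodule.mem_bot K).1 h₀)
  obtain ⟨k₀, hk₀⟩ := ClassA_even ht h0 ⟨0, ha⟩
  obtain ⟨k, hk⟩ := ClassA_even hv hv0 ⟨0, ha⟩
  let f0 : Fin c₀ ≃ Bool × Fin k₀ := Fintype.equivOfCardEq (by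
    rw [Fintype.card_fin, Fintype.card_prod, Fintype.card_bool, Fintype.card_fin]; omega)
  let f1 : Fin c ≃ Bool × (Fin k₀ ⊕ Fin (k - k₀)) := Fintype.equivOfCardEq (by
    rw [Fintype.card_fin, Fintype.card_prod, Fintype.card_bool, Fintype.card_sum,
      Fintype.card_fin, Fintype.card_fin]; omega)
  let e0 : Fin a × Fin c₀ ≃ Fin a × (Bool × Fin k₀) := Equiv.prodCongr (Equiv.refl _) f0
  let e1 : Fin a × Fin c ≃ Fin a × (Bool × (Fin k₀ ⊕ Fin (k - k₀))) :=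
    Equiv.prodCongr (Equiv.refl _) f1
  have t0 : IsType Prod.fst (tr e0 v₀) := ht.trans e0
  have t1 : IsType Prod.fst (tr e1 v) := hv.trans e1
  have z0 : sym Prod.fst (zv K (Fin a) (Fin k₀)) ∈ I.R (Fin a × (Bool × Fin k₀)) := by
    obtain ⟨m, hm, hm0⟩ := t0.exists_inside (ClassA_ne e0 h0)
    have h1 := t0.smul_eq (isType_zv (κ := Fin k₀)) m hm
    have h2 : sym Prod.fst (zv K (Fin a) (Fin k₀)) = (tr e0 v₀ m)⁻¹ •
        (sym Prod.fst (zv K (Fin a) (Fin k₀)) m • tr e0 v₀) := by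
      rw [h1, smul_smul, inv_mul_cancel₀ hm0, one_smul]
    rw [h2]
    exact Submodule.smul_mem _ _ (Submodule.smul_mem _ _ (I.map e0 h₀))
  have z1 := I.col (ι := Fin (k - k₀)) z0
  obtain ⟨m, hm, hm0⟩ := t1.exists_inside (ClassA_ne e1 hv0)
  have h1 := t1.smul_eq (isType_zv (κ := Fin k₀ ⊕ Fin (k - k₀))) m hm
  have h3 := sym_zv_ne (K := K) (κ := Fin k₀ ⊕ Fin (k - k₀)) m hm
  have h2 : tr e1 v = (sym Prod.fst (zv K (Fin a) (Fin k₀ ⊕ Fin (k - k₀))) m)⁻¹ •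
      (tr e1 v m • sym Prod.fst (zv K (Fin a) (Fin k₀ ⊕ Fin (k - k₀)))) := by
    rw [← h1, smul_smul, inv_mul_cancel₀ h3, one_smul]
  have h4 : tr e1 v ∈ I.R (Fin a × (Bool × (Fin k₀ ⊕ Fin (k - k₀)))) := by
    rw [h2]
    exact Submodule.smul_mem _ _ (Submodule.smul_mem _ _ z1)
  have h5 := I.map e1.symm h4
  rwa [tr_symm_tr] at h5

end T7
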