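import Pool.Agent.W_868bb7_h16.Row

/-!
# One more row
-/

open Equiv Finset

namespace T7

variable {K : Type*} [Field K] [CharZero K] {δ : K}

/-- the last row split off -/
def ClassB_f (a c : ℕ) : (Fin a × Fin c) ⊕ Fin c → Fin (a + 1) × Fin c :=
  Sum.elim (fun p => (p.1.castSucc, p.2)) (fun k => (Fin.last a, k))

theorem ClassB_bij (a c : ℕ) : Function.Bijective (ClassB_f a c) := by
  constructor
  · rintro (⟨i, k⟩ | k) (⟨j, l⟩ | l) h
    · simp only [ClassB_f, Sum.elim_inl, Prod.mk.injEq, Fin.castSucc_inj] at h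
      rw [h.1, h.2]
    · simp only [ClassB_f, Sum.elim_inl, Sum.elim_inr, Prod.mk.injEq] at h
      exact absurd h.1 (Fin.castSucc_lt_last i).ne
    · simp only [ClassB_f, Sum.elim_inl, Sum.elim_inr, Prod.mk.injEq] at h
      exact absurd h.1.symm (Fin.castSucc_lt_last j).ne
    · simp only [ClassB_f, Sum.elim_inr, Prod.mk.injEq, true_and] at h
      rw [h]
  · rintro ⟨i, k⟩
    refine Fin.lastCases ?_ (fun j => ?_) i
    · exact ⟨Sum.inr k, rfl⟩
    · exact ⟨Sum.inl (j, k), rfl⟩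

theorem ClassB_fst (a c : ℕ) (x y : (Fin a × Fin c) ⊕ Fin c) :
    bR (Prod.fst : Fin a × Fin c → Fin a) x = bR Prod.fst y ↔
      (ClassB_f a c x).1 = (ClassB_f a c y).1 := by
  rcases x with ⟨i, k⟩ | k <;> rcases y with ⟨j, l⟩ | l
  · simp [bR, ClassB_f]
  · simp only [bR, ClassB_f, Sum.elim_inl, Sum.elim_inr]
    exact ⟨fun h => (Option.some_ne_none _ h).elim, fun h => absurd h (Fin.castSucc_lt_last i).ne⟩
  · simp only [bR, ClassB_f, Sum.elim_inl, Sum.elim_inr]
    exact ⟨fun h => (Option.some_ne_none _ h.symm).elim,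
      fun h => absurd h.symm (Fin.castSucc_lt_last j).ne⟩
  · simp [bR, ClassB_f]

/-- one more row (the same number of columns) -/
theorem Sys.up_row (I : Sys K δ) {a c : ℕ}
    (h : ∀ v : PM (Fin a × Fin c) → K, IsType Prod.fst v → v ∈ I.R (Fin a × Fin c))
    {v : PM (Fin (a + 1) × Fin c) → K} (hv : IsType Prod.fst v) :
    v ∈ I.R (Fin (a + 1) × Fin c) := by
  by_cases h0 : v = 0
  · rw [h0]
    exact Submodule.zero_mem _
  obtain ⟨m₀, hm₀, -⟩ := hv.exists_inside h0
  let e : (Fin a × Fin c) ⊕ Fin c ≃ Fin (a + 1) × Fin c :=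
    Equiv.ofBijective (ClassB_f a c) (ClassB_bij a c)
  let μ : PM (Fin c) := ⟨fun k => (m₀ (Fin.last a, k)).2, fun k => by
      have h1 : ((Fin.last a, (m₀ (Fin.last a, k)).2) : Fin (a + 1) × Fin c) =
          m₀ (Fin.last a, k) := Prod.ext (hm₀ (Fin.last a, k)).symm rfl
      rw [h1, m₀.inv], fun k hk =>
      m₀.ne (Fin.last a, k) (Prod.ext (hm₀ (Fin.last a, k)) hk)⟩
  have hw : IsType (bR (Prod.fst : Fin a × Fin c → Fin a)) (tr e.symm v) :=
    (hv.trans e.symm).relabel fun i j => ClassB_fst a c i j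
  have h1 := I.row hw μ (h _ (hw.delete μ))
  have h2 := I.map e h1
  rwa [tr_tr, Equiv.symm_trans_self, tr_refl] at h2

end T7
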