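import Pool.Agent.W_868bb7_h16.Key
import Pool.Agent.W_868bb7_h16.ClassA
import Pool.Agent.W_868bb7_h16.ClassB

/-!
# UP and the first degree of a system
-/

open Equiv Finset

namespace T7

variable {K : Type*} [Field K] [CharZero K] {δ : K}

/-- UP -/
theorem Sys.up_type (I : Sys K δ) {a₀ c₀ a c : ℕ} (ha : a₀ ≤ a) (hc : c₀ ≤ c)
    {v₀ : PM (Fin a₀ × Fin c₀) → K} (h₀ : v₀ ∈ I.R (Fin a₀ × Fin c₀)) (h0 : v₀ ≠ 0)
    (ht : IsType Prod.fst v₀) {v : PM (Fin a × Fin c) → K} (hv : IsType Prod.fst v) :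
    v ∈ I.R (Fin a × Fin c) := by
  induction a, ha using Nat.le_induction with
  | base => exact I.up_col hc h₀ h0 ht hv
  | succ a ha ih => exact I.up_row (fun v hv => ih hv) hv

/-- the first degree of a non-zero system -/
theorem Sys.first (I : Sys K δ) {α₀ : Type} [Finite α₀] {f₀ : PM α₀ → K} (h₀ : f₀ ∈ I.R α₀)
    (hf₀ : f₀ ≠ 0) : ∃ a c : ℕ, 1 ≤ a ∧ 1 ≤ c ∧ (a : K) = c - 1 + δ ∧ a * c ≤ Nat.card α₀ ∧
      (∀ (β : Type) [Finite β], Nat.card β < a * c → I.R β = ⊥) ∧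
      ∃ v ∈ I.R (Fin a × Fin c), v ≠ 0 ∧ IsType (Prod.fst : Fin a × Fin c → Fin a) v := by
  obtain ⟨a, c, ha, hc, he, hmin, v, hv, hvn, ht⟩ :=
    Sys.key (Sys.bot K δ) I (fun α _ => bot_le)
      ⟨α₀, inferInstance, fun h => hf₀ ((Submodule.mem_bot K).1 (h h₀))⟩
  refine ⟨a, c, ha, hc, he, ?_, ?_, v, hv, ?_, ht⟩
  · by_contra hlt
    exact hf₀ ((Submodule.mem_bot K).1 (hmin α₀ (not_le.1 hlt) h₀))
  · intro β _ hβ
    exact le_bot_iff.1 (hmin β hβ)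
  · rintro rfl
    exact hvn (Submodule.zero_mem _)

end T7
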