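import Pool.Agent.W_868bb7_h16.ColDefs

/-!
# Block symmetrisation
-/

open Equiv Finset

namespace T7

variable {K : Type*} [Field K]

variable {α S κ : Type*} [Fintype α] [DecidableEq α] [Fintype S] [DecidableEq S] [Fintype κ]
  [DecidableEq κ]

theorem perm_ai {γ : Type*} (g : Perm γ) (x : γ) : g (g⁻¹ x) = x := Equiv.apply_symm_apply g x

theorem perm_ia {γ : Type*} (g : Perm γ) (x : γ) : g⁻¹ (g x) = x := Equiv.symm_apply_apply g x

omit [Fintype S] in
theorem tr_sym {b : α → S} (g : Perm α) (hg : ∀ x, b (g x) = b x) (f : PM α → K) :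
    tr g (sym b f) = sym b f := by
  unfold sym
  rw [map_sum]
  refine Finset.sum_bij' (fun h _ => g * h) (fun h _ => g⁻¹ * h) ?_ ?_ ?_ ?_ ?_
  · intro h hh
    simp only [mem_filter, mem_univ, true_and, Perm.mul_apply] at hh ⊢
    intro x; rw [hg, hh]
  · intro h hh
    simp only [mem_filter, mem_univ, true_and, Perm.mul_apply] at hh ⊢
    intro x; rw [← hg, perm_ai, hh]
  · intro h _; exact inv_mul_cancel_left g h
  · intro h _; exact mul_inv_cancel_left g h
  · intro h _; rw [tr_mul]

omit [Fintype S] in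
theorem sym_tr {b : α → S} (g : Perm α) (hg : ∀ x, b (g x) = b x) (f : PM α → K) :
    sym b (tr g f) = sym b f := by
  unfold sym
  refine Finset.sum_bij' (fun h _ => h * g) (fun h _ => h * g⁻¹) ?_ ?_ ?_ ?_ ?_
  · intro h hh
    simp only [mem_filter, mem_univ, true_and, Perm.mul_apply] at hh ⊢
    intro x; rw [hh, hg]
  · intro h hh
    simp only [mem_filter, mem_univ, true_and, Perm.mul_apply] at hh ⊢
    intro x; rw [hh, ← hg, perm_ai]
  · intro h _; exact mul_inv_cancel_right h g
  · intro h _; exact inv_mul_cancel_right h g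
  · intro h _; rw [tr_mul]

omit [Fintype S] in
/-- the symmetrisation of a vector that is antisymmetric under enough transpositions is of block
type. With `H = Perm (A ∪ {j})`, `A` the block of `i₀`, `T = ∑_{i ∈ A ∪ {j}} (i j)`:
`h T P u = T P u` for `h ∈ H`, so `|H| T P u = (|A|+1) ∑_g ∑_{h ∈ H} (h g) u`, and for each `g`
the inner sum is its own negative (`h ↦ h (j, g a₀)`, `a₀` for `x₀ = g⁻¹ j`). -/
theorem isType_sym [CharZero K] (b : α → S) (u : PM α → K)
    (hu : ∀ x₀ i₀ : α, b x₀ ≠ b i₀ → ∃ a₀, b a₀ = b i₀ ∧ tr (swap x₀ a₀) u = -u) :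
    IsType b (sym b u) := by
  have hswap : ∀ i j, b i = b j → ∀ x, b (swap i j x) = b x := by
    intro i j h x
    rcases eq_or_ne x i with rfl | h1
    · rw [swap_apply_left, h]
    rcases eq_or_ne x j with rfl | h2
    · rw [swap_apply_right, h]
    · rw [swap_apply_of_ne_of_ne h1 h2]
  refine ⟨fun i j h => tr_sym _ (hswap i j h) _, fun i₀ j hij => ?_⟩
  set A := univ.filter (fun i => b i = b i₀) with hA
  have hAmem : ∀ x, x ∈ A ↔ b x = b i₀ := fun x => by simp [hA]
  have hjA : j ∉ A := by rw [hAmem]; exact Ne.symm hij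
  set B := insert j A with hB
  set P := sym b u with hP
  have hT : P + ∑ i ∈ A, tr (swap i j) P = ∑ i ∈ B, tr (swap i j) P := by
    rw [hB, Finset.sum_insert hjA, swap_self, tr_refl]
  rw [hT]
  set T := ∑ i ∈ B, tr (swap i j) P with hTdef
  set H : Finset (Perm α) := univ.filter (fun h => ∀ x, x ∉ B → h x = x) with hH
  have hjB : j ∈ B := by simp [hB]
  have hABs : ∀ x ∈ A, x ∈ B := fun x hx => by simp [hB, hx]
  have hHmem : ∀ h, h ∈ H ↔ ∀ x, x ∉ B → h x = x := fun h => by simp [hH]
  have hHB : ∀ h ∈ H, ∀ x ∈ B, h x ∈ B := by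
    intro h hh x hx
    by_contra hc
    have h1 := (hHmem h).1 hh (h x) hc
    have h2 : h x = x := h.injective h1
    rw [h2] at hc; exact hc hx
  have hHinv : ∀ h ∈ H, h⁻¹ ∈ H := by
    intro h hh
    rw [hHmem]
    intro x hx
    rw [Perm.inv_eq_iff_eq]
    exact ((hHmem h).1 hh x hx).symm
  have hHmul : ∀ h ∈ H, ∀ h' ∈ H, h * h' ∈ H := by
    intro h hh h' hh'
    rw [hHmem]
    intro x hx
    rw [Perm.mul_apply, (hHmem h').1 hh' x hx, (hHmem h).1 hh x hx]
  have hHswap : ∀ i ∈ B, ∀ k ∈ B, swap i k ∈ H := by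
    intro i hi k hk
    rw [hHmem]
    intro x hx
    exact swap_apply_of_ne_of_ne (fun h => hx (h ▸ hi)) (fun h => hx (h ▸ hk))
  have hreindex : ∀ k ∈ H, ∀ F : Perm α → (PM α → K),
      ∑ h ∈ H, F (h * k) = ∑ h ∈ H, F h := by
    intro k hk F
    refine Finset.sum_bij' (fun h _ => h * k) (fun h _ => h * k⁻¹) ?_ ?_ ?_ ?_ ?_
    · intro h hh; exact hHmul h hh k hk
    · intro h hh; exact hHmul h hh _ (hHinv k hk)
    · intro h _; exact mul_inv_cancel_right h k
    · intro h _; exact inv_mul_cancel_right h k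
    · intro h _; rfl
  -- (1) `T` is invariant under `H`
  have h1 : ∀ h ∈ H, tr h T = T := by
    intro h hh
    rw [hTdef, map_sum]
    refine Finset.sum_bij' (fun i _ => h i) (fun i _ => h⁻¹ i) ?_ ?_ ?_ ?_ ?_
    · intro i hi; exact hHB h hh i hi
    · intro i hi; exact hHB _ (hHinv h hh) i hi
    · intro i _; exact perm_ia h i
    · intro i _; exact perm_ai h i
    · intro i hi
      have e1 : h * swap i j = swap (h i) j * (swap (h i) j * (h * swap i j)) := by
        rw [← mul_assoc, swap_mul_self, one_mul]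
      rw [← tr_mul, e1, tr_mul]
      congr 1
      apply tr_sym
      intro x
      simp only [Perm.mul_apply]
      rcases eq_or_ne x j with rfl | hxj
      · rw [swap_apply_right, swap_apply_left]
      by_cases hxB : x ∈ B
      · have hxA : x ∈ A := by
          rw [hB, Finset.mem_insert] at hxB
          exact hxB.resolve_left hxj
        have m1 := hHB _ (hHswap i hi j hjB) x hxB
        have m2 := hHB h hh _ m1
        have m3 := hHB _ (hHswap (h i) (hHB h hh i hi) j hjB) _ m2
        rw [hB, Finset.mem_insert] at m3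
        rcases m3 with m3 | m3
        · exfalso
          apply hxj
          have m4 : swap (h i) j (h (swap i j x)) = swap (h i) j (h (swap i j j)) := by
            rw [m3, swap_apply_right, swap_apply_left]
          exact (swap i j).injective (h.injective ((swap (h i) j).injective m4))
        · rw [(hAmem _).1 m3, (hAmem _).1 hxA]
      · rw [(hHmem _).1 (hHswap i hi j hjB) x hxB, (hHmem _).1 hh x hxB,
          (hHmem _).1 (hHswap (h i) (hHB h hh i hi) j hjB) x hxB]
  -- (3) the sum over `H`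
  have h3 : ∑ h ∈ H, tr h P = 0 := by
    have e1 : ∀ h ∈ H, tr h P =
        ∑ g ∈ univ.filter (fun g : Perm α => ∀ x, b (g x) = b x), tr (h * g) u := by
      intro h _
      rw [hP, sym, map_sum]
      rfl
    rw [Finset.sum_congr rfl e1, Finset.sum_comm]
    apply Finset.sum_eq_zero
    intro g hg
    simp only [mem_filter, mem_univ, true_and] at hg
    have hx0 : b (g⁻¹ j) ≠ b i₀ := by
      have := hg (g⁻¹ j)
      rw [perm_ai] at this
      rw [← this]; exact Ne.symm hij
    obtain ⟨a₀, ha₀, ha₁⟩ := hu (g⁻¹ j) i₀ hx0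
    have hga : g a₀ ∈ B := hABs _ (by rw [hAmem, hg, ha₀])
    have e2 : ∑ h ∈ H, tr (h * g) u = - ∑ h ∈ H, tr (h * g) u := by
      conv_rhs => rw [← hreindex (swap j (g a₀)) (hHswap _ hjB _ hga)
        (fun h => tr (h * g) u)]
      rw [← Finset.sum_neg_distrib]
      refine Finset.sum_congr rfl fun h _ => ?_
      have e3 : h * swap j (g a₀) * g = h * g * swap (g⁻¹ j) a₀ := by
        have := Equiv.mul_swap_eq_swap_mul g (g⁻¹ j) a₀
        rw [perm_ai] at this
        rw [mul_assoc, ← this, mul_assoc]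
      rw [e3, tr_mul (h * g), ha₁, map_neg, neg_neg]
    have e4 : (2 : K) • ∑ h ∈ H, tr (h * g) u = 0 := by
      rw [two_smul]
      nth_rw 2 [e2]
      rw [add_neg_cancel]
    exact (smul_eq_zero.1 e4).resolve_left two_ne_zero
  -- (2)
  have h2 : (H.card : K) • T = (B.card : K) • ∑ h ∈ H, tr h P := by
    have e1 : (H.card : K) • T = ∑ h ∈ H, tr h T := by
      rw [Finset.sum_congr rfl h1, Finset.sum_const, Nat.cast_smul_eq_nsmul]
    rw [e1]
    have e2 : ∀ h ∈ H, tr h T = ∑ i ∈ B, tr (h * swap i j) P := by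
      intro h _
      rw [hTdef, map_sum]
      rfl
    rw [Finset.sum_congr rfl e2, Finset.sum_comm]
    rw [Finset.sum_congr rfl (fun i hi => hreindex (swap i j) (hHswap i hi j hjB)
      (fun h => tr h P)), Finset.sum_const, Nat.cast_smul_eq_nsmul]
  rw [h3, smul_zero] at h2
  refine (smul_eq_zero.1 h2).resolve_left ?_
  refine Nat.cast_ne_zero.2 ?_
  apply Finset.card_ne_zero_of_mem (a := (1 : Perm α))
  rw [hHmem]
  intro x _; rfl

end T7
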