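import Pool.Agent.W_868bb7_h16.Sys

/-!
# Matchings that differ only inside blocks
-/

open Equiv Finset

namespace T7

variable {K : Type*} [Field K] {α β S : Type*} [Fintype α] [DecidableEq α] [Fintype β]
  [DecidableEq β] [DecidableEq S]

omit [DecidableEq S] in
/-- Two matchings that differ only inside blocks have the same value. Induction on the number of
points where they differ: if `p = m x ≠ m₀ x = q`, replace `m` by `(p q) m`. -/
theorem eq_of_agree {b : α → S} {v : PM α → K} (hv : ∀ i j, b i = b j → tr (swap i j) v = v)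
    (m m₀ : PM α) (h : ∀ x, m x ≠ m₀ x → b (m x) = b x ∧ b (m₀ x) = b x) : v m = v m₀ := by
  obtain ⟨n, hn⟩ : ∃ n, (univ.filter (fun x => m x ≠ m₀ x)).card = n := ⟨_, rfl⟩
  induction n using Nat.strong_induction_on generalizing m with
  | _ n ih =>
  by_cases hin : ∀ x, m x = m₀ x
  · rw [PM.ext hin]
  push Not at hin
  obtain ⟨x, hx⟩ := hin
  set p := m x with hp
  set q := m₀ x with hq
  have hbp := h x hx
  have hmp : m p = x := by rw [hp, m.inv]
  have hq0 : m₀ q = x := by rw [hq, m₀.inv]
  have hxp : x ≠ p := by rw [hp]; exact (m.ne x).symm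
  have hxq : x ≠ q := by rw [hq]; exact (m₀.ne x).symm
  have hmqx : m q ≠ x := by
    intro h1; apply hx; rw [← hmp] at h1; exact (m.inj h1).symm
  have hmqp : m q ≠ p := by
    intro h1; rw [hp] at h1; exact hxq (m.inj h1).symm
  have hmqq : m q ≠ q := m.ne q
  have hpm : ∀ y, (PM.map (swap p q) m) y = swap p q (m (swap p q y)) := fun y => by
    rw [PM.map_apply, Equiv.symm_swap]
  -- values of the new matching
  have e1 : (PM.map (swap p q) m) x = q := by
    rw [hpm, swap_apply_of_ne_of_ne hxp hxq, ← hp, swap_apply_left]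
  have e2 : (PM.map (swap p q) m) q = x := by
    rw [hpm, swap_apply_right, hmp, swap_apply_of_ne_of_ne hxp hxq]
  have e3 : (PM.map (swap p q) m) p = m q := by
    rw [hpm, swap_apply_left, swap_apply_of_ne_of_ne hmqp hmqq]
  have e4 : (PM.map (swap p q) m) (m q) = p := by
    rw [← e3, PM.inv]
  have e5 : ∀ y, y ≠ x → y ≠ p → y ≠ q → y ≠ m q → (PM.map (swap p q) m) y = m y := by
    intro y h1 h2 h3 h4
    rw [hpm, swap_apply_of_ne_of_ne h2 h3, swap_apply_of_ne_of_ne]
    · intro h5; apply h1; rw [← m.inv y, h5, hmp]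
    · intro h5; apply h4; rw [← h5, m.inv]
  have hv1 : v (PM.map (swap p q) m) = v m := by
    have h1 := congrFun (hv p q (by rw [hbp.1, hbp.2])) (PM.map (swap p q) m)
    rw [tr_apply] at h1
    rw [← h1]
    congr 1
    ext y
    have hs : ∀ z, swap p q (swap p q z) = z := fun z => by
      rw [← Perm.mul_apply, swap_mul_self, Perm.one_apply]
    simp only [PM.map_apply, Equiv.symm_swap, hs]
  have hqd : m q ≠ m₀ q := by rw [hq0]; exact hmqx
  have hbq := h q hqd
  have hbr : b (m q) = b x := by rw [hbq.1, hbp.2]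
  rw [← hv1]
  refine ih _ ?_ _ ?_ rfl
  · rw [← hn]
    apply Finset.card_lt_card
    rw [Finset.ssubset_iff_of_subset]
    · refine ⟨x, by simp only [mem_filter, mem_univ, true_and]; exact hx, ?_⟩
      simp only [mem_filter, mem_univ, true_and, not_not]
      rw [e1]
    · intro y
      simp only [mem_filter, mem_univ, true_and]
      intro hy
      rcases eq_or_ne y x with rfl | h1
      · exact hx
      rcases eq_or_ne y p with rfl | h2
      · rw [hmp]; intro h3; apply hx; rw [hq, h3, m₀.inv]
      rcases eq_or_ne y q with rfl | h3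
      · exact hqd
      rcases eq_or_ne y (m q) with h4 | h4
      · rw [h4, m.inv]; intro h5; apply hmqx
        have h6 : m₀ q = m q := by conv_lhs => rw [h5, m₀.inv]
        rw [← h6, hq0]
      · rw [e5 y h1 h2 h3 h4] at hy; exact hy
  · intro y hy
    rcases eq_or_ne y x with rfl | h1
    · rw [e1] at hy; exact absurd rfl hy
    rcases eq_or_ne y q with rfl | h3
    · rw [e2, hq0] at hy; exact absurd rfl hy
    rcases eq_or_ne y p with h2 | h2
    · rw [h2]
      have hd : m p ≠ m₀ p := by
        rw [hmp]; intro h3; apply hx; rw [hq, h3, m₀.inv]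
      have := (h p hd).2
      refine ⟨?_, this⟩
      rw [e3, hbr, hbp.1]
    rcases eq_or_ne y (m q) with h4 | h4
    · subst h4
      have hd : m (m q) ≠ m₀ (m q) := by
        rw [m.inv]; intro h5; apply hmqx
        have h6 : m₀ q = m q := by conv_lhs => rw [h5, m₀.inv]
        rw [← h6, hq0]
      refine ⟨?_, (h _ hd).2⟩
      rw [e4, hbr, hbp.1]
    · rw [e5 y h1 h2 h3 h4] at hy ⊢
      exact h y hy

end T7
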