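import Pool.Agent.W_868bb7_h16.Sys

/-!
# Blocks of equal size
-/

open Equiv Finset

namespace T7

variable {K : Type*} [Field K] {α β S : Type*} [Fintype α] [DecidableEq α] [Fintype β]
  [DecidableEq β] [DecidableEq S]

/-- a partition into `a` blocks of size `c` is isomorphic to `Fin a × Fin c` -/
theorem exists_equiv_fst {a c : ℕ} (b : α → Fin a)
    (hb : ∀ s, (univ.filter (fun x => b x = s)).card = c) :
    ∃ e : α ≃ Fin a × Fin c, ∀ x, (e x).1 = b x := by
  have h1 : ∀ s : Fin a, Nonempty ({x // b x = s} ≃ Fin c) := by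
    intro s
    refine ⟨Fintype.equivFinOfCardEq ?_⟩
    rw [Fintype.card_subtype, hb s]
  let es : ∀ s : Fin a, {x // b x = s} ≃ Fin c := fun s => (h1 s).some
  refine ⟨(Equiv.sigmaFiberEquiv b).symm.trans ((Equiv.sigmaCongrRight es).trans
    (Equiv.sigmaEquivProd (Fin a) (Fin c))), fun x => rfl⟩

/-- a type with a perfect matching has an even number of points -/
theorem PM.even_card (m : PM α) : Even (Fintype.card α) := by
  have h1 : ∑ _x : α, (1 : ZMod 2) = 0 :=
    Finset.sum_involution (fun x _ => m x) (fun _ _ => by decide) (fun x _ _ => m.ne x)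
      (fun _ _ => Finset.mem_univ _) (fun x _ => m.inv x)
  rw [Finset.sum_const, Finset.card_univ, nsmul_eq_mul, mul_one] at h1
  exact (ZMod.natCast_eq_zero_iff_even).1 h1

end T7
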