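import Pool.Agent.W_868bb7_h16.UniqA
import Pool.Agent.W_868bb7_h16.UniqB
import Pool.Agent.W_868bb7_h16.UniqD

/-!
# Vectors of block type: uniqueness, rationality, transport
-/

open Equiv Finset

namespace T7

variable {K : Type*} [Field K] {α β S : Type*} [Fintype α] [DecidableEq α] [Fintype β]
  [DecidableEq β] [DecidableEq S]

theorem IsType.add {b : α → S} {v w : PM α → K} (hv : IsType b v) (hw : IsType b w) :
    IsType b (v + w) := by
  refine ⟨fun i j h => by rw [map_add, hv.inv i j h, hw.inv i j h], fun i j h => ?_⟩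
  have h1 := hv.rel i j h
  have h2 := hw.rel i j h
  simp only [map_add, Finset.sum_add_distrib]
  rw [add_add_add_comm, h1, h2, add_zero]

theorem IsType.smul {b : α → S} {v : PM α → K} (hv : IsType b v) (c : K) :
    IsType b (c • v) := by
  refine ⟨fun i j h => by rw [map_smul, hv.inv i j h], fun i j h => ?_⟩
  have h1 := hv.rel i j h
  simp only [map_smul, ← Finset.smul_sum]
  rw [← smul_add, h1, smul_zero]

/-- a vector of block type that vanishes at all inside matchings is zero -/
theorem IsType.eq_zero_of_inside [CharZero K] {b : α → S} {v : PM α → K} (hv : IsType b v)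
    (h : ∀ m : PM α, (∀ x, b (m x) = b x) → v m = 0) : v = 0 := by
  funext m
  have := hv.mem_of_inside (⊥ : AddSubgroup K) (fun n x hn hx => by
    rw [AddSubgroup.mem_bot] at hx ⊢
    rcases mul_eq_zero.1 hx with h0 | h0
    · exact absurd (Nat.cast_eq_zero.1 h0) hn
    · exact h0) (fun m hm => by rw [AddSubgroup.mem_bot]; exact h m hm) m
  exact (AddSubgroup.mem_bot.1 this)

/-- uniqueness up to a scalar -/
theorem IsType.smul_eq [CharZero K] {b : α → S} {v w : PM α → K} (hv : IsType b v)
    (hw : IsType b w) (m₀ : PM α) (hm₀ : ∀ x, b (m₀ x) = b x) : w m₀ • v = v m₀ • w := by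
  have hu : IsType b (w m₀ • v + (-(v m₀)) • w) := (hv.smul _).add (hw.smul _)
  have h0 : w m₀ • v + (-(v m₀)) • w = 0 := by
    refine hu.eq_zero_of_inside fun m hm => ?_
    have h1 : v m = v m₀ := eq_of_agree hv.inv m m₀ fun x _ => ⟨hm x, hm₀ x⟩
    have h2 : w m = w m₀ := eq_of_agree hw.inv m m₀ fun x _ => ⟨hm x, hm₀ x⟩
    simp only [Pi.add_apply, Pi.smul_apply, smul_eq_mul, h1, h2]
    ring
  rw [neg_smul, ← sub_eq_add_neg, sub_eq_zero] at h0
  exact h0

theorem IsType.exists_inside [CharZero K] {b : α → S} {v : PM α → K} (hv : IsType b v)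
    (h0 : v ≠ 0) : ∃ m₀ : PM α, (∀ x, b (m₀ x) = b x) ∧ v m₀ ≠ 0 := by
  by_contra hc
  push Not at hc
  exact h0 (hv.eq_zero_of_inside hc)

/-- the blocks of a non-zero vector have an even number of points -/
theorem IsType.even_card [CharZero K] {b : α → S} {v : PM α → K} (hv : IsType b v)
    (h0 : v ≠ 0) (s : S) : Even (univ.filter (fun x => b x = s)).card := by
  obtain ⟨m₀, hm₀, -⟩ := hv.exists_inside h0
  have h1 : Even (Fintype.card {x // b x = s}) := by
    refine PM.even_card (⟨fun x => ⟨m₀ x.1, (hm₀ x.1).trans x.2⟩, fun x => ?_, fun x hx => ?_⟩ :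
      PM {x // b x = s})
    · exact Subtype.ext (m₀.inv x.1)
    · exact m₀.ne x.1 (congrArg Subtype.val hx)
  rwa [Fintype.card_subtype] at h1

theorem trans_swap (e : α ≃ β) (i j : β) :
    e.trans (swap i j) = (swap (e.symm i) (e.symm j)).trans e := by
  ext x
  simp only [Equiv.trans_apply]
  rcases eq_or_ne (e x) i with h | h
  · subst h
    simp
  · rcases eq_or_ne (e x) j with h' | h'
    · subst h'
      simp
    · rw [swap_apply_of_ne_of_ne h h', swap_apply_of_ne_of_ne]
      · rw [ne_eq, Equiv.eq_symm_apply]; exact h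
      · rw [ne_eq, Equiv.eq_symm_apply]; exact h'

theorem tr_swap_tr (e : α ≃ β) (i j : β) (v : PM α → K) :
    tr (swap i j) (tr e v) = tr e (tr (swap (e.symm i) (e.symm j)) v) := by
  rw [tr_tr, tr_tr, trans_swap]

theorem IsType.trans {b : α → S} {v : PM α → K} (hv : IsType b v) (e : α ≃ β) :
    IsType (fun y => b (e.symm y)) (tr e v) := by
  refine ⟨fun i j h => ?_, fun i j h => ?_⟩
  · rw [tr_swap_tr, hv.inv _ _ h]
  · have h1 := hv.rel _ _ h
    simp only [tr_swap_tr]
    rw [← map_sum, ← map_add]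
    have h2 : ∑ x ∈ univ.filter (fun y => b (e.symm y) = b (e.symm i)),
        tr (swap (e.symm x) (e.symm j)) v =
        ∑ x ∈ univ.filter (fun y => b y = b (e.symm i)), tr (swap x (e.symm j)) v := by
      refine Finset.sum_equiv e.symm (fun x => by simp) (fun x _ => rfl)
    rw [h2, h1, map_zero]

/-- only the partition into blocks matters -/
theorem IsType.relabel {S' : Type*} [DecidableEq S'] {b : α → S} {b' : α → S'} {v : PM α → K}
    (hv : IsType b v) (h : ∀ i j, b' i = b' j ↔ b i = b j) : IsType b' v := by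
  refine ⟨fun i j hij => hv.inv i j ((h i j).1 hij), fun i j hij => ?_⟩
  have h1 := hv.rel i j (fun hh => hij ((h i j).2 hh))
  have h2 : univ.filter (fun k => b' k = b' i) = univ.filter (fun k => b k = b i) := by
    ext k; simp [h]
  rw [h2]
  exact h1

end T7
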