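import Pool.Agent.W_868bb7_h16.ColA
import Pool.Agent.W_868bb7_h16.ColB
import Pool.Agent.W_868bb7_h16.Uniq

/-!
# The symmetrised vector is not zero
-/

open Equiv Finset

namespace T7

variable {K : Type*} [Field K]

variable {α S κ : Type*} [Fintype α] [DecidableEq α] [Fintype S] [DecidableEq S] [Fintype κ]
  [DecidableEq κ]

theorem isType_zv [CharZero K] :
    IsType (Prod.fst : S × (Bool × κ) → S) (sym Prod.fst (zv K S κ)) := by
  apply isType_sym
  rintro ⟨s, p⟩ ⟨t, q⟩ h
  exact ⟨(t, p), rfl, zv_swap h p⟩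

/-- the symmetrisation of `zv` does not vanish at an inside matching (its value is the number of
`g` with `g⁻¹ m₀` standard) -/
theorem sym_zv_ne [CharZero K] (m₀ : PM (S × (Bool × κ))) (h : ∀ x, (m₀ x).1 = x.1) :
    sym Prod.fst (zv K S κ) m₀ ≠ 0 := by
  classical
  -- the standard matching
  let ms : PM (S × (Bool × κ)) := ⟨fun x => (x.1, (!x.2.1, x.2.2)), fun x => by simp, fun x hx => by
    have h1 := congrArg (fun y : S × (Bool × κ) => y.2.1) hx
    simp at h1⟩
  have hms : ∀ x, (ms x).1 = x.1 := fun x => rfl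
  have h1 : sym Prod.fst (zv K S κ) m₀ = sym Prod.fst (zv K S κ) ms :=
    eq_of_agree (b := (Prod.fst : S × (Bool × κ) → S)) isType_zv.inv m₀ ms
      fun x _ => ⟨h x, hms x⟩
  have h2 : sym Prod.fst (zv K S κ) ms =
      ∑ g ∈ univ.filter (fun g : Perm (S × (Bool × κ)) => ∀ x, (g x).1 = x.1),
        if ∀ s l, PM.map g.symm ms (s, (false, l)) = (s, (true, l)) then (1 : K) else 0 := by
    unfold sym
    rw [Finset.sum_apply]
    refine Finset.sum_congr rfl fun g hg => ?_
    have hg' : ∀ x, (g x).1 = x.1 := (Finset.mem_filter.1 hg).2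
    have hg2 : ∀ y, (g.symm y).1 = y.1 := fun y => by
      rw [← hg' (g.symm y), g.apply_symm_apply]
    rw [tr_apply, zv_inside]
    intro x
    rw [PM.map_apply, Equiv.symm_symm, hg2, hms, hg']
  rw [h1, h2, Finset.sum_boole, Nat.cast_ne_zero, ← Nat.pos_iff_ne_zero, Finset.card_pos]
  refine ⟨1, Finset.mem_filter.2 ⟨Finset.mem_filter.2 ⟨Finset.mem_univ _, fun x => rfl⟩, ?_⟩⟩
  intro s l
  rfl

end T7
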