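import Pool.Agent.W_868bb7_h16.Sys2
import Pool.Agent.W_868bb7_h16.ColC

/-!
# Adding columns
-/

open Equiv Finset

namespace T7

variable {K : Type*} [Field K]

theorem Col_prod_tr {α α' β : Type*} (e : α ≃ α') (f : PM α → K) (g : PM β → K) :
    prod (tr e f) g = tr (Equiv.sumCongr e (Equiv.refl β)) (prod f g) := by
  refine prod_ext (fun m n => ?_) (fun m x y h => ?_)
  · rw [prod_sum, tr_apply, tr_apply, Equiv.sumCongr_symm, Sys2_map_sum, prod_sum]
    rfl
  · rw [prod_of_not _ _ m x y h, tr_apply, prod_of_not _ _ _ (e.symm x) y]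
    simp [h]

theorem Col_prod_sum {α β τ : Type*} (s : Finset τ) (f : τ → PM α → K) (g : PM β → K) :
    prod (∑ i ∈ s, f i) g = ∑ i ∈ s, prod (f i) g := by
  classical
  induction s using Finset.induction_on with
  | empty => rw [Finset.sum_empty, Finset.sum_empty, prod_zero_left]
  | insert a s ha ih => rw [Finset.sum_insert ha, Finset.sum_insert ha, prod_add_left, ih]

/-- adding columns -/
theorem Sys.col {δ : K} [CharZero K] (I : Sys K δ) {S κ ι : Type} [Fintype S] [DecidableEq S]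
    [Fintype κ] [DecidableEq κ] [Fintype ι] [DecidableEq ι]
    (h : sym Prod.fst (zv K S κ) ∈ I.R (S × (Bool × κ))) :
    sym Prod.fst (zv K S (κ ⊕ ι)) ∈ I.R (S × (Bool × (κ ⊕ ι))) := by
  classical
  set F : Finset (Perm (S × (Bool × κ))) :=
    univ.filter (fun g : Perm (S × (Bool × κ)) => ∀ x, (g x).1 = x.1) with hF
  have hu : tr (eC S κ ι) (prod (sym Prod.fst (zv K S κ)) (zv K S ι)) ∈
      I.R (S × (Bool × (κ ⊕ ι))) := I.map _ (I.prod_mem h _)
  have h1 : tr (eC S κ ι) (prod (sym Prod.fst (zv K S κ)) (zv K S ι)) =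
      ∑ g ∈ F, tr (((eC S κ ι).symm.trans (Equiv.sumCongr g (Equiv.refl _))).trans (eC S κ ι))
        (zv K S (κ ⊕ ι)) := by
    have h2 : sym Prod.fst (zv K S κ) = ∑ g ∈ F, tr g (zv K S κ) := rfl
    rw [h2, Col_prod_sum, map_sum]
    refine Finset.sum_congr rfl fun g _ => ?_
    rw [Col_prod_tr, ← zv_sum (K := K) (S := S) (κ := κ) (ι := ι), tr_tr, tr_tr]
    have h6 : (sumCongr g (Equiv.refl (S × (Bool × ι)))).trans (eC S κ ι) =
        (eC S κ ι).trans (((eC S κ ι).symm.trans (sumCongr g (Equiv.refl _))).trans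
          (eC S κ ι)) := by
      refine Equiv.ext fun x => ?_
      simp only [Equiv.trans_apply, Equiv.symm_apply_apply]
    rw [h6]
  have h3 : sym Prod.fst (tr (eC S κ ι) (prod (sym Prod.fst (zv K S κ)) (zv K S ι))) =
      (F.card : K) • sym Prod.fst (zv K S (κ ⊕ ι)) := by
    rw [h1]
    have h4 : ∀ (s : Finset (Perm (S × (Bool × κ))))
        (f : Perm (S × (Bool × κ)) → PM (S × (Bool × (κ ⊕ ι))) → K),
        sym Prod.fst (∑ i ∈ s, f i) = ∑ i ∈ s, sym Prod.fst (f i) := by
      intro s f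
      simp only [sym, map_sum]
      rw [Finset.sum_comm]
    rw [h4, Nat.cast_smul_eq_nsmul, ← Finset.sum_const]
    refine Finset.sum_congr rfl fun g hg => ?_
    have hg' : ∀ x, (g x).1 = x.1 := (Finset.mem_filter.1 hg).2
    refine sym_tr _ ?_ _
    rintro ⟨s, ε, l | l⟩
    · have := hg' (s, (ε, l))
      simp only [Equiv.trans_apply, eC, Equiv.coe_fn_mk, Equiv.coe_fn_symm_mk,
        Equiv.sumCongr_apply, Sum.map_inl]
      exact this
    · rfl
  have hc : (F.card : K) ≠ 0 := by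
    rw [Nat.cast_ne_zero]
    refine Finset.card_ne_zero.2 ⟨1, ?_⟩
    simp [hF]
  have h5 := I.sym_mem Prod.fst hu
  rw [h3] at h5
  exact (Submodule.smul_mem_iff _ hc).1 h5

end T7
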