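import Pool.Agent.W_868bb7_h16.ColDefs

/-!
# The antisymmetric vector `zv`
-/

open Equiv Finset

namespace T7

variable {K : Type*} [Field K]

variable {α S κ : Type*} [Fintype α] [DecidableEq α] [Fintype S] [DecidableEq S] [Fintype κ]
  [DecidableEq κ]

omit [Fintype S] [Fintype κ] in
theorem ColA_swap (s t : S) (l : κ) (b : Bool) (s' : S) (l' : κ) :
    swap (s, (b, l)) (t, (b, l)) (s', (b, l')) =
      ((Pi.mulSingle l (swap s t) : κ → Perm S) l' s', (b, l')) := by
  by_cases hl : l' = l
  · subst hl
    rw [Pi.mulSingle_eq_same]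
    simp only [swap_apply_def, Prod.mk.injEq, and_true]
    split_ifs <;> rfl
  · rw [Pi.mulSingle_eq_of_ne hl, Perm.one_apply]
    refine swap_apply_of_ne_of_ne ?_ ?_ <;> simp [hl]

omit [Fintype S] [Fintype κ] in
theorem ColA_fixF (s t : S) (l : κ) (x : S) (l' : κ) :
    swap (s, (false, l)) (t, (false, l)) (x, (true, l')) = (x, (true, l')) := by
  refine swap_apply_of_ne_of_ne ?_ ?_ <;> simp

omit [Fintype S] [Fintype κ] in
theorem ColA_fixT (s t : S) (l : κ) (x : S) (l' : κ) :
    swap (s, (true, l)) (t, (true, l)) (x, (false, l')) = (x, (false, l')) := by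
  refine swap_apply_of_ne_of_ne ?_ ?_ <;> simp

theorem ColA_gen (m m' : PM (S × (Bool × κ))) (Φ : (κ → Perm S) ≃ (κ → Perm S))
    (h1 : ∀ σ, (∀ s l, m' (s, (false, l)) = (σ l s, (true, l))) ↔
      ∀ s l, m (s, (false, l)) = (Φ σ l s, (true, l)))
    (h2 : ∀ σ, ∏ l, ((Perm.sign (Φ σ l) : ℤ) : K) = - ∏ l, ((Perm.sign (σ l) : ℤ) : K)) :
    zv K S κ m' = - zv K S κ m := by
  unfold zv
  rw [← Finset.sum_neg_distrib]
  refine Fintype.sum_equiv Φ _ _ fun σ => ?_
  by_cases h : ∀ s l, m' (s, (false, l)) = (σ l s, (true, l))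
  · rw [if_pos h, if_pos ((h1 σ).1 h), h2, neg_neg]
  · rw [if_neg h, if_neg fun h' => h ((h1 σ).2 h'), neg_zero]

theorem ColA_sign (l : κ) {s t : S} (h : s ≠ t) :
    ∏ l', ((Perm.sign ((Pi.mulSingle l (swap s t) : κ → Perm S) l') : ℤ) : K) = -1 := by
  rw [Fintype.prod_eq_single l]
  · rw [Pi.mulSingle_eq_same, Perm.sign_swap h]
    simp
  · intro l' hl'
    rw [Pi.mulSingle_eq_of_ne hl']
    simp

/-- `zv` is antisymmetric under exchanging two rows at one column -/
theorem zv_swap {s t : S} (h : s ≠ t) (p : Bool × κ) :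
    tr (swap (s, p) (t, p)) (zv K S κ) = - zv K S κ := by
  obtain ⟨b, l⟩ := p
  funext m
  rw [tr_apply, Pi.neg_apply]
  set g : κ → Perm S := Pi.mulSingle l (swap s t) with hg
  have hgg : g * g = 1 := by
    rw [hg, ← Pi.mulSingle_mul, swap_mul_self, Pi.mulSingle_one]
  have hg2 : ∀ l' x, g l' (g l' x) = x := by
    intro l' x
    have := congrFun hgg l'
    rw [Pi.mul_apply, Pi.one_apply] at this
    have h2 := Equiv.congr_fun this x
    rwa [Perm.mul_apply, Perm.one_apply] at h2
  cases b with
  | false =>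
    refine ColA_gen m _ (Equiv.mulRight g) (fun σ => ?_) (fun σ => ?_)
    · have e1 : ∀ x l', (PM.map (swap (s, (false, l)) (t, (false, l))).symm m) (x, (false, l')) =
          swap (s, (false, l)) (t, (false, l)) (m (g l' x, (false, l'))) := by
        intro x l'
        rw [PM.map_apply, symm_swap, symm_swap, ColA_swap]
      constructor
      · intro h1 x l'
        have h2 := h1 (g l' x) l'
        rw [e1, hg2, swap_apply_eq_iff, ColA_fixF] at h2
        exact h2
      · intro h1 x l'
        rw [e1, h1, swap_apply_eq_iff, ColA_fixF]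
        simp [hg2]
    · simp only [Equiv.coe_mulRight, Pi.mul_apply, Perm.sign_mul, Units.val_mul, Int.cast_mul]
      rw [Finset.prod_mul_distrib, ColA_sign l h, mul_neg_one]
  | true =>
    refine ColA_gen m _ (Equiv.mulLeft g) (fun σ => ?_) (fun σ => ?_)
    · have e1 : ∀ x l', (PM.map (swap (s, (true, l)) (t, (true, l))).symm m) (x, (false, l')) =
          swap (s, (true, l)) (t, (true, l)) (m (x, (false, l'))) := by
        intro x l'
        rw [PM.map_apply, symm_swap, symm_swap, ColA_fixT]
      refine forall_congr' fun x => forall_congr' fun l' => ?_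
      rw [e1, swap_apply_eq_iff, ColA_swap]
      rfl
    · simp only [Equiv.coe_mulLeft, Pi.mul_apply, Perm.sign_mul, Units.val_mul, Int.cast_mul]
      rw [Finset.prod_mul_distrib, ColA_sign l h, neg_one_mul]

/-- at a matching inside the rows, `zv` is `1` or `0` -/
theorem zv_inside (m : PM (S × (Bool × κ))) (h : ∀ x, (m x).1 = x.1) :
    zv K S κ m = if ∀ s l, m (s, (false, l)) = (s, (true, l)) then 1 else 0 := by
  unfold zv
  rw [Fintype.sum_eq_single 1]
  · simp
  · intro σ hσ
    rw [if_neg]
    intro h1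
    apply hσ
    funext l
    ext s
    have h2 := h (s, (false, l))
    rw [h1] at h2
    simpa using h2

theorem zv_sum {ι : Type*} [Fintype ι] [DecidableEq ι] :
    tr (eC S κ ι) (prod (zv K S κ) (zv K S ι)) = zv K S (κ ⊕ ι) := by
  have key : prod (zv K S κ) (zv K S ι) = fun m => zv K S (κ ⊕ ι) (PM.map (eC S κ ι) m) := by
    refine prod_ext (fun m n => ?_) fun m x y hxy => ?_
    · rw [prod_sum]
      unfold zv
      rw [Finset.sum_mul_sum, ← Finset.sum_product', Finset.univ_product_univ]
      symm
      refine Fintype.sum_equiv (Equiv.sumArrowEquivProdArrow κ ι (Perm S)) _ _ fun σ => ?_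
      have hc : (∀ s l, (PM.map (eC S κ ι) (PM.sum m n)) (s, (false, l)) = (σ l s, (true, l))) ↔
          (∀ s l, m (s, (false, l)) = (σ (Sum.inl l) s, (true, l))) ∧
            ∀ s l, n (s, (false, l)) = (σ (Sum.inr l) s, (true, l)) := by
        have e1 : ∀ s l, (PM.map (eC S κ ι) (PM.sum m n)) (s, (false, Sum.inl l)) =
            eC S κ ι (Sum.inl (m (s, (false, l)))) := fun s l => rfl
        have e2 : ∀ s l, (PM.map (eC S κ ι) (PM.sum m n)) (s, (false, Sum.inr l)) =
            eC S κ ι (Sum.inr (n (s, (false, l)))) := fun s l => rfl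
        constructor
        · intro h1
          constructor
          · intro s l
            have h2 := h1 s (Sum.inl l)
            rw [e1] at h2
            have h3 : (σ (Sum.inl l) s, (true, (Sum.inl l : κ ⊕ ι))) =
              eC S κ ι (Sum.inl (σ (Sum.inl l) s, (true, l))) := rfl
            rw [h3] at h2
            exact Sum.inl_injective ((eC S κ ι).injective h2)
          · intro s l
            have h2 := h1 s (Sum.inr l)
            rw [e2] at h2
            have h3 : (σ (Sum.inr l) s, (true, (Sum.inr l : κ ⊕ ι))) =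
              eC S κ ι (Sum.inr (σ (Sum.inr l) s, (true, l))) := rfl
            rw [h3] at h2
            exact Sum.inr_injective ((eC S κ ι).injective h2)
        · rintro ⟨h1, h2⟩ s (l | l)
          · rw [e1, h1]
            rfl
          · rw [e2, h2]
            rfl
      by_cases h1 : ∀ s l, m (s, (false, l)) = (σ (Sum.inl l) s, (true, l))
      · by_cases h2 : ∀ s l, n (s, (false, l)) = (σ (Sum.inr l) s, (true, l))
        · rw [if_pos (hc.2 ⟨h1, h2⟩)]
          simp only [Equiv.sumArrowEquivProdArrow_apply_fst, Equiv.sumArrowEquivProdArrow_apply_snd]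
          rw [if_pos h1, if_pos h2, Fintype.prod_sum_type]
        · rw [if_neg fun h => h2 (hc.1 h).2]
          simp only [Equiv.sumArrowEquivProdArrow_apply_snd]
          rw [if_neg h2, mul_zero]
      · rw [if_neg fun h => h1 (hc.1 h).1]
        simp only [Equiv.sumArrowEquivProdArrow_apply_fst]
        rw [if_neg h1, zero_mul]
    · rw [prod_of_not _ _ m x y hxy]
      symm
      unfold zv
      refine Finset.sum_eq_zero fun σ _ => if_neg fun h1 => ?_
      obtain ⟨s, b, l⟩ := x
      obtain ⟨s', b', l'⟩ := y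
      have e1 : (PM.map (eC S κ ι) m) (s, (b, Sum.inl l)) = eC S κ ι (m (Sum.inl (s, (b, l)))) := rfl
      rw [hxy] at e1
      cases b with
      | false =>
        rw [h1] at e1
        have := congrArg (fun z => z.2.2) e1
        simp [eC] at this
      | true =>
        have h2 := h1 ((σ (Sum.inl l)).symm s) (Sum.inl l)
        rw [Equiv.apply_symm_apply] at h2
        have h3 := PM.inv (PM.map (eC S κ ι) m) ((σ (Sum.inl l)).symm s, (false, Sum.inl l))
        rw [h2, e1] at h3
        have := congrArg (fun z => z.2.2) h3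
        simp [eC] at this
  funext M
  rw [tr_apply, key]
  change zv K S (κ ⊕ ι) (PM.map (eC S κ ι) (PM.map (eC S κ ι).symm M)) = _
  rw [PM.map_map, Equiv.symm_trans_self, PM.map_refl]

end T7
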