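import Pool.Agent.W_868bb7_h16.Sys

/-!
# Antisymmetric vectors, block symmetrisation: definitions
-/

open Equiv Finset

namespace T7

variable {K : Type*} [Field K]

/-- sum over all permutations preserving the blocks -/
def sym {α S : Type*} [Fintype α] [DecidableEq α] [DecidableEq S] (b : α → S)
    (f : PM α → K) : PM α → K :=
  ∑ g ∈ univ.filter (fun g : Perm α => ∀ x, b (g x) = b x), tr g f

/-- the vector `∑_σ sgn(σ) ∏_{s,l} {(s,(false,l)), (σ_l s,(true,l))}`, `σ : κ → Perm S` -/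
def zv (K : Type*) [Field K] (S κ : Type*) [Fintype S] [DecidableEq S] [Fintype κ]
    [DecidableEq κ] : PM (S × (Bool × κ)) → K := fun m =>
  ∑ σ : κ → Perm S, if ∀ s l, m (s, (false, l)) = (σ l s, (true, l)) then
    ∏ l, ((Perm.sign (σ l) : ℤ) : K) else 0

variable {α S κ : Type*} [Fintype α] [DecidableEq α] [Fintype S] [DecidableEq S] [Fintype κ]
  [DecidableEq κ]

/-- `(S × (Bool × κ)) ⊕ (S × (Bool × ι)) ≃ S × (Bool × (κ ⊕ ι))` -/
def eC (S κ ι : Type*) :
    (S × (Bool × κ)) ⊕ (S × (Bool × ι)) ≃ S × (Bool × (κ ⊕ ι)) where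
  toFun x := match x with
    | Sum.inl (s, (ε, l)) => (s, (ε, Sum.inl l))
    | Sum.inr (s, (ε, l)) => (s, (ε, Sum.inr l))
  invFun x := match x with
    | (s, (ε, Sum.inl l)) => Sum.inl (s, (ε, l))
    | (s, (ε, Sum.inr l)) => Sum.inr (s, (ε, l))
  left_inv x := by rcases x with ⟨s, ε, l⟩ | ⟨s, ε, l⟩ <;> rfl
  right_inv x := by rcases x with ⟨s, ε, l | l⟩ <;> rfl

theorem Sys.sym_mem {δ : K} (I : Sys K δ) {α S : Type} [Fintype α] [DecidableEq α]
    [DecidableEq S] (b : α → S) {f : PM α → K} (hf : f ∈ I.R α) : sym b f ∈ I.R α :=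
  Submodule.sum_mem _ fun g _ => I.map g hf

end T7
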