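import Pool.Agent.W_868bb7_h16.ColC

/-!
# Existence of a non-zero vector of type `(a, c)` for even `c`
-/

open Equiv Finset

namespace T7

theorem exists_type (K : Type*) [Field K] [CharZero K] (a c : ℕ) (hc : Even c) :
    ∃ v : PM (Fin a × Fin c) → K, v ≠ 0 ∧ IsType (Prod.fst : Fin a × Fin c → Fin a) v := by
  obtain ⟨k, hk⟩ := hc
  have e0 : Bool × Fin k ≃ Fin c := by
    apply Fintype.equivOfCardEq
    simp [hk, two_mul]
  let e : Fin a × (Bool × Fin k) ≃ Fin a × Fin c := (Equiv.refl _).prodCongr e0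
  refine ⟨tr e (sym Prod.fst (zv K (Fin a) (Fin k))), ?_, ?_⟩
  · intro h
    have h1 : sym Prod.fst (zv K (Fin a) (Fin k)) = 0 := (tr e).map_eq_zero_iff.1 h
    let m₀ : PM (Fin a × (Bool × Fin k)) :=
      ⟨fun x => (x.1, (!x.2.1, x.2.2)), fun x => by simp, fun x hx => by
        have := congrArg (fun y => y.2.1) hx
        simp at this⟩
    exact sym_zv_ne m₀ (fun x => rfl) (congrFun h1 m₀)
  · exact (isType_zv (K := K) (S := Fin a) (κ := Fin k)).trans e

end T7
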