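import Pool.Agent.W_868bb7_h16.Sys

/-!
# Star Lemma, part B: counting
-/

open Equiv Finset

namespace T7

variable {K : Type*} [Field K] {α : Type*} [Fintype α] [DecidableEq α]

theorem StarLB_row {κ : K} {W : Submodule K (PM α → K)} (hW : StarMod κ W) {t : ℕ}
    (b : α → ℕ) (f : PM α → K) (hf : f ∈ W)
    (hB : ∀ s < t, ∀ j, b j ≠ s →
      f + ∑ i ∈ univ.filter (fun x => b x = s), tr (swap i j) f = 0)
    (A : Finset α) (hA : ∀ i ∈ A, t ≤ b i) (hAf : InvOn A f) (i : α) (hi : i ∈ A) :
    κ • f + f = -((t : K) • f) + (A.card : K) • f +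
      ∑ k ∈ univ.filter (fun x => t ≤ b x) \ A, tr (swap i k) f := by
  have h1 : ∑ k, tr (swap i k) f = κ • f + f := by
    rw [← Finset.sum_erase_add _ _ (mem_univ i), swap_self]
    have h2 := hW.star i f hf
    unfold Y at h2
    rw [h2]
    rfl
  have h2 : ∑ k ∈ univ.filter (fun x => ¬ t ≤ b x), tr (swap i k) f = -((t : K) • f) := by
    have h3 : ∑ k ∈ univ.filter (fun x => ¬ t ≤ b x), tr (swap i k) f =
        ∑ s ∈ range t, ∑ k ∈ (univ.filter (fun x => ¬ t ≤ b x)).filter (fun x => b x = s),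
          tr (swap i k) f := by
      refine (Finset.sum_fiberwise_of_maps_to (fun k hk => ?_) _).symm
      rw [mem_filter] at hk
      rw [mem_range]
      omega
    rw [h3]
    have h4 : ∀ s ∈ range t, ∑ k ∈ (univ.filter (fun x => ¬ t ≤ b x)).filter (fun x => b x = s),
          tr (swap i k) f = -f := by
      intro s hs
      rw [mem_range] at hs
      have h5 : (univ.filter (fun x => ¬ t ≤ b x)).filter (fun x => b x = s) =
          univ.filter (fun x => b x = s) := by
        ext x
        simp only [mem_filter, mem_univ, true_and]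
        omega
      rw [h5]
      have h6 := hB s hs i (by have := hA i hi; omega)
      simp only [swap_comm _ i] at h6
      exact (neg_eq_of_add_eq_zero_right h6).symm
    rw [Finset.sum_congr rfl h4, Finset.sum_const, card_range, ← Nat.cast_smul_eq_nsmul K, smul_neg]
  have h3 : ∑ k ∈ A, tr (swap i k) f = (A.card : K) • f := by
    rw [Finset.sum_congr rfl (fun k hk => hAf i hi k hk), Finset.sum_const, Nat.cast_smul_eq_nsmul K]
  have hAZ : A ⊆ univ.filter (fun x => t ≤ b x) := fun x hx => by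
    rw [mem_filter]
    exact ⟨mem_univ _, hA x hx⟩
  have h4 := Finset.sum_filter_add_sum_filter_not univ (fun x => t ≤ b x) (fun k => tr (swap i k) f)
  rw [h1, h2, ← Finset.sum_sdiff hAZ, h3] at h4
  rw [← h4]
  abel

/-- Counting. The blocks `{x | b x = s}`, `s < t`, have size `c`, and `Z = {x | t ≤ b x}`.
For `i ∈ A`: `κ f = Y i f = (|A| - 1) f - t f + ∑_{j ∈ Z \ A} (i j) f`; sum over `i ∈ A` and use
`∑_{i ∈ A} (i j) f = - f` for `j ∈ Z \ A`. -/
theorem StarMod.count {κ : K} {W : Submodule K (PM α → K)} (hW : StarMod κ W) {t : ℕ}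
    (b : α → ℕ) (f : PM α → K) (hf : f ∈ W) (hf0 : f ≠ 0)
    (hB : ∀ s < t, ∀ j, b j ≠ s →
      f + ∑ i ∈ univ.filter (fun x => b x = s), tr (swap i j) f = 0)
    (A : Finset α) (hA : ∀ i ∈ A, t ≤ b i) (hAf : InvOn A f)
    (hAj : ∀ j, t ≤ b j → j ∉ A → f + ∑ i ∈ A, tr (swap i j) f = 0) :
    ((univ.filter (fun x => t ≤ b x)).card : K) = A.card * (A.card - κ - t) := by
  have hAZ : A ⊆ univ.filter (fun x => t ≤ b x) := fun x hx => by
    rw [mem_filter]
    exact ⟨mem_univ _, hA x hx⟩
  have h1 : ∑ i ∈ A, (κ • f + f) = ∑ i ∈ A, (-((t : K) • f) + (A.card : K) • f +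
      ∑ k ∈ univ.filter (fun x => t ≤ b x) \ A, tr (swap i k) f) :=
    Finset.sum_congr rfl fun i hi => StarLB_row hW b f hf hB A hA hAf i hi
  have h2 : ∑ i ∈ A, ∑ k ∈ univ.filter (fun x => t ≤ b x) \ A, tr (swap i k) f =
      -(((univ.filter (fun x => t ≤ b x) \ A).card : K) • f) := by
    rw [Finset.sum_comm]
    have h3 : ∀ k ∈ univ.filter (fun x => t ≤ b x) \ A, ∑ i ∈ A, tr (swap i k) f = -f := by
      intro k hk
      rw [mem_sdiff, mem_filter] at hk
      exact (neg_eq_of_add_eq_zero_right (hAj k hk.1.2 hk.2)).symm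
    rw [Finset.sum_congr rfl h3, Finset.sum_const, ← Nat.cast_smul_eq_nsmul K, smul_neg]
  rw [Finset.sum_add_distrib (f := fun _ => -((t : K) • f) + (A.card : K) • f), h2, Finset.sum_const,
    Finset.sum_const, ← Nat.cast_smul_eq_nsmul K, ← Nat.cast_smul_eq_nsmul K,
    Finset.card_sdiff_of_subset hAZ, Nat.cast_sub (card_le_card hAZ)] at h1
  have h4 : (((univ.filter (fun x => t ≤ b x)).card : K) - A.card * (A.card - κ - t)) • f = 0 := by
    have h5 : (((univ.filter (fun x => t ≤ b x)).card : K) - A.card * (A.card - κ - t)) • f =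
        (A.card : K) • (κ • f + f) - ((A.card : K) • (-((t : K) • f) + (A.card : K) • f) +
          -((((univ.filter (fun x => t ≤ b x)).card : K) - A.card) • f)) := by
      module
    rw [h5, h1, sub_self]
  rcases smul_eq_zero.1 h4 with h5 | h5
  · exact sub_eq_zero.1 h5
  · exact absurd h5 hf0

end T7
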