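import Pool.Agent.W_868bb7_h16.StarLA
import Pool.Agent.W_868bb7_h16.StarLB

/-!
# Star Lemma, part D: one more block
-/

open Equiv Finset

namespace T7

variable {K : Type*} [Field K] [CharZero K] {α : Type*} [Fintype α] [DecidableEq α]

/-- One more block. -/
theorem StarMod.step {κ : K} {W : Submodule K (PM α → K)} (hW : StarMod κ W) {c t : ℕ}
    (hc : 1 ≤ c) (hn : (Fintype.card α : K) = c * (c - κ))
    (hmax : ∀ (A : Finset α), ∀ f ∈ W, f ≠ 0 → InvOn A f → A.card ≤ c)
    (b : α → ℕ) (hb : ∀ s < t, (univ.filter (fun x => b x = s)).card = c)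
    (f : PM α → K) (hf : f ∈ W) (hf0 : f ≠ 0)
    (hB : ∀ s < t, InvOn (univ.filter (fun x => b x = s)) f) (hZ : ∃ x, t ≤ b x) :
    ∃ b' : α → ℕ, (∀ s < t + 1, (univ.filter (fun x => b' x = s)).card = c) ∧
      ∃ f' ∈ W, f' ≠ 0 ∧ ∀ s < t + 1, InvOn (univ.filter (fun x => b' x = s)) f' := by
  classical
  set Z : Finset α := univ.filter (fun x => t ≤ b x) with hZdef
  have hmemW : ∀ (g : PM α → K) (S : Finset α) (j : α), g ∈ W →
      g + ∑ i ∈ S, tr (swap i j) g ∈ W := fun g S j hg =>
    W.add_mem hg (W.sum_mem fun i _ => hW.stable i j g hg)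
  -- the maximal set
  let P : Finset α → Prop := fun A => A ⊆ Z ∧ ∃ f' ∈ W, f' ≠ 0 ∧
    (∀ s < t, InvOn (univ.filter (fun x => b x = s)) f') ∧ InvOn A f'
  have hPne : ((univ : Finset (Finset α)).filter P).Nonempty := by
    refine ⟨∅, ?_⟩
    rw [mem_filter]
    exact ⟨mem_univ _, empty_subset _, f, hf, hf0, hB, fun i hi => absurd hi (notMem_empty i)⟩
  obtain ⟨A, hA, hAmax⟩ := Finset.exists_max_image _ Finset.card hPne
  rw [mem_filter] at hA
  obtain ⟨-, hAZ, g, hgW, hg0, hgB, hgA⟩ := hA
  have hAt : ∀ i ∈ A, t ≤ b i := fun i hi => (mem_filter.1 (hAZ hi)).2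
  have h1 : ∀ j, t ≤ b j → j ∉ A → g + ∑ i ∈ A, tr (swap i j) g = 0 := by
    intro j hj hjA
    by_contra hne
    have h2 : insert j A ∈ (univ : Finset (Finset α)).filter P := by
      rw [mem_filter]
      refine ⟨mem_univ _, ?_, _, hmemW g A j hgW, hne, fun s hs => ?_, hgA.insert' hjA⟩
      · intro x hx
        rcases mem_insert.1 hx with rfl | hx
        · exact mem_filter.2 ⟨mem_univ _, hj⟩
        · exact hAZ hx
      · refine (hgB s hs).other ?_ ?_
        · rw [Finset.disjoint_left]
          intro x hx hx'
          have h3 := hAt x hx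
          have h4 := (mem_filter.1 hx').2
          omega
        · intro hx
          have h4 := (mem_filter.1 hx).2
          omega
    have h3 := hAmax _ h2
    rw [card_insert_of_notMem hjA] at h3
    omega
  have h2 : ∀ s < t, ∀ j, b j ≠ s →
      g + ∑ i ∈ univ.filter (fun x => b x = s), tr (swap i j) g = 0 := by
    intro s hs j hj
    by_contra hne
    have hjs : j ∉ univ.filter (fun x => b x = s) := fun h => hj (mem_filter.1 h).2
    have h3 := hmax (insert j (univ.filter (fun x => b x = s))) _
      (hmemW g _ j hgW) hne ((hgB s hs).insert' hjs)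
    rw [card_insert_of_notMem hjs, hb s hs] at h3
    omega
  have hcount := hW.count b g hgW hg0 h2 A hAt hgA h1
  -- the number of points
  have hcard : Fintype.card α = t * c + Z.card := by
    have h3 : (univ : Finset α).card = ((univ : Finset α).filter (fun x => b x < t)).card +
        ((univ : Finset α).filter (fun x => ¬ b x < t)).card :=
      (Finset.card_filter_add_card_filter_not (s := (univ : Finset α)) _).symm
    have h4 : ((univ : Finset α).filter (fun x => ¬ b x < t)) = Z := by
      rw [hZdef]
      refine Finset.filter_congr fun x _ => ?_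
      exact not_lt
    have h5 : ((univ : Finset α).filter (fun x => b x < t)).card = t * c := by
      have h6 := Finset.card_eq_sum_card_fiberwise (f := b)
        (s := (univ : Finset α).filter (fun x => b x < t)) (t := range t)
        (fun x hx => by
          have h7 := (mem_filter.1 (Finset.mem_coe.1 hx)).2
          exact Finset.mem_coe.2 (mem_range.2 h7))
      rw [h6]
      have h8 : ∀ s ∈ range t,
          (((univ : Finset α).filter (fun x => b x < t)).filter (fun x => b x = s)).card = c := by
        intro s hs
        have hs' := mem_range.1 hs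
        rw [← hb s hs']
        congr 1
        ext x
        simp only [mem_filter, mem_univ, true_and]
        constructor
        · exact fun h => h.2
        · exact fun h => ⟨by omega, h⟩
      rw [Finset.sum_congr rfl h8, Finset.sum_const, Finset.card_range, smul_eq_mul]
    rw [Finset.card_univ, h4, h5] at h3
    exact h3
  have hZpos : 0 < Z.card := by
    obtain ⟨x, hx⟩ := hZ
    exact Finset.card_pos.2 ⟨x, mem_filter.2 ⟨mem_univ _, hx⟩⟩
  have hAc : A.card = c := by
    have h3 : (Fintype.card α : K) = t * c + Z.card := by
      rw [hcard]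
      push_cast
      ring
    rw [hn] at h3
    have h4 : ((c : K) - A.card) * ((Z.card : K) + c * A.card) = 0 := by
      linear_combination (A.card : K) * h3 + (c : K) * hcount
    rcases mul_eq_zero.1 h4 with h5 | h5
    · have h6 : (c : K) = A.card := sub_eq_zero.1 h5
      exact (Nat.cast_injective h6).symm
    · exfalso
      have h6 : ((Z.card + c * A.card : ℕ) : K) = 0 := by
        push_cast
        exact h5
      have h7 := Nat.cast_eq_zero.1 h6
      omega
  -- the new blocks
  have hfs : ∀ s < t, univ.filter (fun x => (if x ∈ A then t else if t ≤ b x then b x + 1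
      else b x) = s) = univ.filter (fun x => b x = s) := by
    intro s hs
    ext x
    simp only [mem_filter, mem_univ, true_and]
    by_cases hx : x ∈ A
    · have := hAt x hx
      simp only [hx, if_true]
      omega
    · simp only [hx, if_false]
      by_cases hx' : t ≤ b x
      · simp only [hx', if_true]
        omega
      · simp only [hx', if_false]
  have hft : univ.filter (fun x => (if x ∈ A then t else if t ≤ b x then b x + 1
      else b x) = t) = A := by
    ext x
    simp only [mem_filter, mem_univ, true_and]
    by_cases hx : x ∈ A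
    · simp only [hx, if_true]
    · simp only [hx, if_false, iff_false]
      by_cases hx' : t ≤ b x
      · simp only [hx', if_true]
        omega
      · simp only [hx', if_false]
        omega
  refine ⟨fun x => if x ∈ A then t else if t ≤ b x then b x + 1 else b x, fun s hs => ?_,
    g, hgW, hg0, fun s hs => ?_⟩
  · rcases Nat.lt_succ_iff_lt_or_eq.1 hs with h | rfl
    · rw [hfs s h]
      exact hb s h
    · rw [hft]
      exact hAc
  · rcases Nat.lt_succ_iff_lt_or_eq.1 hs with h | rfl
    · rw [hfs s h]
      exact hgB s h
    · rw [hft]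
      exact hgA

end T7
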