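import Pool.Agent.W_868bb7_h16.StarLC
import Pool.Agent.W_868bb7_h16.StarLD

/-!
# The Star Lemma (helper60)

Let `W` be a non-zero star module with scalar `κ` on `α`, `|α| = n ≥ 1`, and `c` the largest size
of a set `A` such that some non-zero `f ∈ W` is invariant under the permutations of `A`. Then
`n = c (c - κ)`, and `W` contains a non-zero vector of type `(a, c)`, `a = c - κ`.
-/

open Equiv Finset

namespace T7

variable {K : Type*} [Field K] [CharZero K] {α : Type*} [Fintype α] [DecidableEq α]

omit [CharZero K] in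
/-- a vector invariant under all the blocks, which have the maximal size, is of block type -/
theorem isType_of_blocks {κ : K} {W : Submodule K (PM α → K)} (hW : StarMod κ W) {c t : ℕ}
    (hmax : ∀ (A : Finset α), ∀ f ∈ W, f ≠ 0 → InvOn A f → A.card ≤ c)
    (b : α → Fin t) (hb : ∀ s, (univ.filter (fun x => b x = s)).card = c)
    (f : PM α → K) (hf : f ∈ W) (hB : ∀ s, InvOn (univ.filter (fun x => b x = s)) f) :
    IsType b f := by
  refine ⟨fun i j hij => hB (b i) i (by simp) j (by simp [hij]), fun i₀ j hij => ?_⟩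
  by_contra h0
  set A := univ.filter (fun x => b x = b i₀) with hA
  have hj : j ∉ A := by
    simp only [hA, mem_filter, mem_univ, true_and]
    exact fun h => hij h.symm
  have h1 := hmax (insert j A) (f + ∑ i ∈ A, tr (swap i j) f)
    (W.add_mem hf (W.sum_mem fun i _ => hW.stable _ _ _ hf)) h0 ((hB (b i₀)).insert' hj)
  rw [card_insert_of_notMem hj, hb] at h1
  omega

theorem star_lemma {κ : K} {W : Submodule K (PM α → K)} (hW : StarMod κ W) (hne : W ≠ ⊥)
    [Nonempty α] : ∃ (c a : ℕ) (b : α → Fin a), 1 ≤ c ∧ 1 ≤ a ∧ (a : K) = c - κ ∧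
      (∀ s, (univ.filter (fun x => b x = s)).card = c) ∧
      (∃ v ∈ W, v ≠ 0 ∧ IsType b v) ∧
      (∀ (A : Finset α), ∀ f ∈ W, f ≠ 0 → InvOn A f → A.card ≤ c) := by
  classical
  obtain ⟨c, hc, hn, hmax⟩ := hW.exists_max hne
  let P : ℕ → Prop := fun t => ∃ b : α → ℕ,
    (∀ s < t, (univ.filter (fun x => b x = s)).card = c) ∧
      ∃ f ∈ W, f ≠ 0 ∧ ∀ s < t, InvOn (univ.filter (fun x => b x = s)) f
  have hcard : ∀ (t : ℕ) (b : α → ℕ), (∀ s < t, (univ.filter (fun x => b x = s)).card = c) →
      (univ.filter (fun x => b x < t)).card = t * c := by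
    intro t b hb
    have h1 : univ.filter (fun x => b x < t) =
        (range t).biUnion fun s => univ.filter (fun x => b x = s) := by
      ext x
      simp
    rw [h1, card_biUnion]
    · rw [sum_congr rfl fun s hs => hb s (mem_range.1 hs)]
      simp
    · intro s _ s' _ hss
      rw [Function.onFun, disjoint_filter]
      intro x _ hx hx'
      exact hss (hx.symm.trans hx')
  have hbd : ∀ t, P t → t ≤ Fintype.card α := by
    rintro t ⟨b, hb, -⟩
    have h1 := hcard t b hb
    have h2 : (univ.filter (fun x => b x < t)).card ≤ Fintype.card α := card_le_univ _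
    nlinarith
  have h0 : P 0 := by
    obtain ⟨f, hf, hf0⟩ := W.ne_bot_iff.1 hne
    exact ⟨fun _ => 0, fun s hs => absurd hs (by omega), f, hf, hf0,
      fun s hs => absurd hs (by omega)⟩
  obtain ⟨t, ht, htm⟩ : ∃ t, P t ∧ ¬ P (t + 1) := by
    by_contra hcon
    push Not at hcon
    have : ∀ t, P t := fun t => by
      induction t with
      | zero => exact h0
      | succ t ih => exact hcon t ih
    have h3 := hbd _ (this (Fintype.card α + 1))
    omega
  obtain ⟨b, hb, f, hf, hf0, hB⟩ := ht
  have hlt : ∀ x, b x < t := by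
    by_contra hcon
    push Not at hcon
    exact htm (hW.step hc hn hmax b hb f hf hf0 hB hcon)
  have hcard' : Fintype.card α = t * c := by
    rw [← hcard t b hb, ← card_univ]
    congr 1
    ext x
    simp [hlt]
  have ht1 : 1 ≤ t := by
    obtain ⟨x⟩ := (inferInstance : Nonempty α)
    have := hlt x
    omega
  refine ⟨c, t, fun x => ⟨b x, hlt x⟩, hc, ht1, ?_, ?_, ?_, hmax⟩
  · have hc0 : (c : K) ≠ 0 := Nat.cast_ne_zero.2 (by omega)
    apply mul_left_cancel₀ hc0
    rw [← hn, hcard']
    push_cast
    ring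
  · intro s
    rw [← hb s s.2]
    congr 1
    ext x
    simp [Fin.ext_iff]
  · refine ⟨f, hf, hf0, isType_of_blocks hW hmax _ (fun s => ?_) f hf fun s => ?_⟩
    · rw [← hb s s.2]
      congr 1
      ext x
      simp [Fin.ext_iff]
    · have h5 := hB s s.2
      have h6 : (univ.filter (fun x => (⟨b x, hlt x⟩ : Fin t) = s)) =
          univ.filter (fun x => b x = s) := by
        ext x
        simp [Fin.ext_iff]
      rw [h6]
      exact h5

end T7
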