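import Pool.Agent.W_868bb7_h16.Sys

/-!
# The zero system, the sum of two systems, products with arbitrary matchings
-/

open Equiv Finset

namespace T7

variable {K : Type*} [Field K] {δ : K}

/-- the zero system -/
def Sys.bot (K : Type*) [Field K] (δ : K) : Sys K δ where
  R _ _ := ⊥
  map {_ _ _ _} e {f} hf := by rw [Submodule.mem_bot] at hf ⊢; rw [hf, map_zero]
  up {_ _ f} hf := by rw [Submodule.mem_bot] at hf ⊢; rw [hf, up_zero]
  down {_ _ _ f} hf := by rw [Submodule.mem_bot] at hf ⊢; rw [hf, dn_zero]
  zero := rfl

/-- the sum of two systems -/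
def Sys.sup (I J : Sys K δ) : Sys K δ where
  R α _ := I.R α ⊔ J.R α
  map {_ _ _ _} e {f} hf := by
    obtain ⟨x, hx, y, hy, rfl⟩ := Submodule.mem_sup.1 hf
    rw [map_add]
    exact Submodule.add_mem_sup (I.map e hx) (J.map e hy)
  up {_ _ f} hf := by
    obtain ⟨x, hx, y, hy, rfl⟩ := Submodule.mem_sup.1 hf
    rw [up_add]
    exact Submodule.add_mem_sup (I.up hx) (J.up hy)
  down {_ _ _ f} hf := by
    obtain ⟨x, hx, y, hy, rfl⟩ := Submodule.mem_sup.1 hf
    rw [dn_add]
    exact Submodule.add_mem_sup (I.down hx) (J.down hy)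
  zero := by intro α _ _; rw [I.zero, J.zero, sup_bot_eq]

theorem Sys2_map_sum {α β α' β' : Type*} (e : α ≃ α') (e' : β ≃ β') (m : PM α) (n : PM β) :
    PM.map (Equiv.sumCongr e e') (PM.sum m n) = PM.sum (PM.map e m) (PM.map e' n) := by
  ext x
  rcases x with x | x <;> simp

theorem Sys2_prod_tr {α β β' : Type*} (e : β ≃ β') (f : PM α → K) (g : PM β → K) :
    prod f (tr e g) = tr (Equiv.sumCongr (Equiv.refl α) e) (prod f g) := by
  refine prod_ext (fun m n => ?_) (fun m x y h => ?_)
  · rw [prod_sum, tr_apply, tr_apply, Equiv.sumCongr_symm, Sys2_map_sum, prod_sum]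
    rfl
  · rw [prod_of_not _ _ m x y h, tr_apply, prod_of_not _ _ _ x (e.symm y)]
    simp [h]

theorem Sys2_prod_assoc {α β γ : Type*} (f : PM α → K) (g : PM β → K) (k : PM γ → K) :
    prod f (prod g k) = tr (Equiv.sumAssoc α β γ) (prod (prod f g) k) := by
  refine prod_ext (fun m n => ?_) (fun m x y h => ?_)
  · rw [prod_sum, tr_apply]
    by_cases hn : ∀ x : β, ∃ y : β, n (Sum.inl x) = Sum.inl y
    · obtain ⟨n1, n2, rfl⟩ := n.exists_sum hn
      have h1 : PM.map (Equiv.sumAssoc α β γ).symm (PM.sum m (PM.sum n1 n2)) =
          PM.sum (PM.sum m n1) n2 := by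
        ext x
        rcases x with (x | x) | x <;> simp
      rw [h1, prod_sum, prod_sum, prod_sum, mul_assoc]
    · push Not at hn
      obtain ⟨x, hx⟩ := hn
      rcases hy : n (Sum.inl x) with y | y
      · exact absurd hy (hx y)
      · rw [prod_of_not _ _ n x y hy, mul_zero, prod_of_not _ _ _ (Sum.inr x) y]
        simp [hy]
  · rw [prod_of_not _ _ m x y h, tr_apply]
    rcases y with b | c
    · have h1 : PM.map (Equiv.sumAssoc α β γ).symm m (Sum.inl (Sum.inl x)) =
          Sum.inl (Sum.inr b) := by
        simp [h]
      by_cases hn : ∀ z : α ⊕ β, ∃ y : α ⊕ β,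
          PM.map (Equiv.sumAssoc α β γ).symm m (Sum.inl z) = Sum.inl y
      · obtain ⟨n1, n2, hn12⟩ := PM.exists_sum _ hn
        rw [hn12] at h1 ⊢
        rw [prod_sum, prod_of_not _ _ n1 x b, zero_mul]
        exact Sum.inl_injective h1
      · push Not at hn
        obtain ⟨z, hz⟩ := hn
        rcases hy : PM.map (Equiv.sumAssoc α β γ).symm m (Sum.inl z) with y | y
        · exact absurd hy (hz y)
        · rw [prod_of_not _ _ _ z y hy]
    · rw [prod_of_not _ _ _ (Sum.inl x) c]
      simp [h]

open Classical in
theorem Sys2_prod_single (I : Sys K δ) {α : Type} [Finite α] {f : PM α → K}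
    (hf : f ∈ I.R α) (N : ℕ) : ∀ {β : Type} [Finite β], Nat.card β = N →
      ∀ n : PM β, prod f (Pi.single n (1 : K)) ∈ I.R (α ⊕ β) := by
  induction N using Nat.strong_induction_on with
  | _ N ih =>
    intro β _ hN n
    rcases isEmpty_or_nonempty β with hβ | ⟨⟨i⟩⟩
    · have h1 : prod f (Pi.single n (1 : K)) = tr (Equiv.sumEmpty α β).symm f := by
        refine prod_ext (fun m n' => ?_) (fun m x y h => (hβ.false y).elim)
        have hn : n' = n := PM.ext fun x => (hβ.false x).elim
        rw [prod_sum, hn, Pi.single_eq_same, mul_one, tr_apply]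
        congr 1
      rw [h1]
      exact I.map _ hf
    · set j := n i with hj
      have hji : j ≠ i := n.ne i
      let β' : Type := {x : β // x ≠ i ∧ x ≠ j}
      have hn' : ∀ x : β', n x.1 ≠ i ∧ n x.1 ≠ j := by
        rintro ⟨x, hx1, hx2⟩
        refine ⟨fun h => hx2 ?_, fun h => hx1 ?_⟩
        · show x = j
          rw [hj, ← h, n.inv]
        · exact n.inj (h.trans hj)
      let n' : PM β' := ⟨fun x => ⟨n x.1, hn' x⟩, fun x => Subtype.ext (n.inv _),
        fun x h => n.ne x.1 (congrArg Subtype.val h)⟩
      let e : β' ⊕ Bool ≃ β :=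
        { toFun := fun x => Sum.elim (fun y : β' => y.1) (fun b : Bool => if b then j else i) x
          invFun := fun x => if h1 : x = i then Sum.inr false else
            if h2 : x = j then Sum.inr true else Sum.inl ⟨x, h1, h2⟩
          left_inv := by
            rintro (⟨x, hx1, hx2⟩ | b)
            · simp [hx1, hx2]
            · cases b <;> simp [hji]
          right_inv := by
            intro x
            by_cases h1 : x = i
            · simp [h1]
            · by_cases h2 : x = j
              · simp [h2, hji]
              · simp [h1, h2] }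
      have e1 : ∀ x : β', e (Sum.inl x) = x.1 := fun x => rfl
      have e2 : e (Sum.inr false) = i := rfl
      have e3 : e (Sum.inr true) = j := rfl
      have hn : n = PM.map e (PM.sum n' PM.bool) := by
        ext y
        obtain ⟨x, rfl⟩ := e.surjective y
        rw [PM.map_apply, Equiv.symm_apply_apply]
        rcases x with x | b
        · rw [PM.sum_inl, e1, e1]
        · cases b
          · rw [PM.sum_inr, PM.bool_apply, Bool.not_false, e2, e3]
          · rw [PM.sum_inr, PM.bool_apply, Bool.not_true, e2, e3, hj, n.inv]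
      have hs : (Pi.single n (1 : K) : PM β → K) =
          tr e (prod (Pi.single n' (1 : K)) (fun _ : PM Bool => (1 : K))) := by
        funext m
        obtain ⟨m', rfl⟩ := (PM.map e).surjective m
        rw [tr_apply, ← PM.map_symm, Equiv.symm_apply_apply]
        by_cases hm : ∀ x : β', ∃ y : β', m' (Sum.inl x) = Sum.inl y
        · obtain ⟨m1, m2, rfl⟩ := m'.exists_sum hm
          rw [prod_sum, mul_one, PM.eq_bool m2]
          by_cases h1 : m1 = n'
          · rw [h1, ← hn, Pi.single_eq_same, Pi.single_eq_same]
          · rw [Pi.single_eq_of_ne h1, Pi.single_eq_of_ne]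
            intro h2
            rw [hn] at h2
            exact h1 (PM.sum_inj ((PM.map e).injective h2)).1
        · push Not at hm
          obtain ⟨x, hx⟩ := hm
          rcases hy : m' (Sum.inl x) with y | y
          · exact absurd hy (hx y)
          · rw [prod_of_not _ _ m' x y hy, Pi.single_eq_of_ne]
            intro h2
            rw [hn] at h2
            rw [(PM.map e).injective h2] at hy
            simp at hy
      have hcard : Nat.card β' < N := by
        rw [← hN]
        have h1 : Nat.card β = Nat.card β' + 2 := by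
          rw [← Nat.card_congr e, Nat.card_sum]
          simp
        omega
      rw [hs, Sys2_prod_tr, Sys2_prod_assoc]
      exact I.map _ (I.map _ (I.up (ih _ hcard rfl n')))

/-- `prod f g ∈ R` for `f ∈ R` and any `g`: add the chords of the matchings of `β` one by one -/
theorem Sys.prod_mem (I : Sys K δ) {α β : Type} [Finite α] [Finite β] {f : PM α → K}
    (hf : f ∈ I.R α) (g : PM β → K) : prod f g ∈ I.R (α ⊕ β) := by
  classical
  let P : (PM β → K) →ₗ[K] (PM (α ⊕ β) → K) :=
    { toFun := fun g => prod f g
      map_add' := fun g g' => prod_add_right f g g'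
      map_smul' := fun c g => prod_smul_right c f g }
  have h1 : prod f g = ∑ n, g n • prod f (Pi.single n (1 : K)) := by
    have h2 : g = ∑ n, g n • (Pi.single n (1 : K) : PM β → K) := by
      funext m
      simp [Finset.sum_apply, Pi.single_apply]
    have h3 : P g = ∑ n, g n • P (Pi.single n (1 : K)) := by
      conv_lhs => rw [h2]
      rw [map_sum]
      simp only [map_smul]
    exact h3
  rw [h1]
  refine Submodule.sum_mem _ fun n _ => Submodule.smul_mem _ _ ?_
  convert Sys2_prod_single I hf _ rfl n

end T7
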