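import Pool.Agent.W_868bb7_h16.KeyB
import Pool.Agent.W_868bb7_h16.StarL
import Pool.Agent.W_868bb7_h16.Uniq
import Pool.Agent.W_868bb7_h16.Sys2

/-!
# KEY: two different systems `I < I'` differ by a vector of rectangular type
-/

open Equiv Finset

namespace T7

variable {K : Type*} [Field K] [CharZero K]

theorem Sys.key {δ : K} (I I' : Sys K δ)
    (hle : ∀ (α : Type) [Finite α], I.R α ≤ I'.R α)
    (hne : ∃ (α : Type) (_ : Finite α), ¬ I'.R α ≤ I.R α) :
    ∃ a c : ℕ, 1 ≤ a ∧ 1 ≤ c ∧ (a : K) = c - 1 + δ ∧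
      (∀ (β : Type) [Finite β], Nat.card β < a * c → I'.R β ≤ I.R β) ∧
      ∃ v ∈ I'.R (Fin a × Fin c), v ∉ I.R (Fin a × Fin c) ∧
        IsType (Prod.fst : Fin a × Fin c → Fin a) v := by
  classical
  have hP : ∃ n : ℕ, ∃ (α : Type) (_ : Finite α), Nat.card α = n ∧ ¬ I'.R α ≤ I.R α := by
    obtain ⟨α, h, h'⟩ := hne
    exact ⟨_, α, h, rfl, h'⟩
  have hmin0 : ∀ (β : Type) [Finite β], Nat.card β < Nat.find hP → I'.R β ≤ I.R β := by
    intro β hβ hlt
    by_contra hcon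
    exact Nat.find_min hP hlt ⟨β, hβ, rfl, hcon⟩
  obtain ⟨α, hα, hcardα, hneα⟩ := Nat.find_spec hP
  have : Fintype α := Fintype.ofFinite α
  have hmin : ∀ β : Type, ∀ _ : Fintype β, Fintype.card β < Fintype.card α →
      I'.R β ≤ I.R β := by
    intro β _ hlt
    refine hmin0 β ?_
    rw [← hcardα, Nat.card_eq_fintype_card, Nat.card_eq_fintype_card]
    exact hlt
  have : Nonempty α := by
    by_contra hcon
    rw [not_nonempty_iff] at hcon
    refine hneα ?_
    rw [I'.zero]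
    exact bot_le
  obtain ⟨W, hW, hWI', hWI, hWne⟩ := Sys.exists_starMod I I' hle hneα hmin
  obtain ⟨c, a, b, hc, ha, hac, hcard, ⟨v, hv, hv0, hvt⟩, -⟩ := star_lemma hW hWne
  obtain ⟨e, he⟩ := exists_equiv_fst b hcard
  have hcard2 : Nat.card α = a * c := by
    rw [Nat.card_congr e]
    simp
  refine ⟨a, c, ha, hc, by rw [hac]; ring, fun β _ hβ => hmin0 β ?_, tr e v,
    I'.map e (hWI' hv), fun hcon => hv0 ?_, ?_⟩
  · rw [← hcardα, hcard2]
    exact hβ
  · have h1 := I.map e.symm hcon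
    rw [tr_symm_tr] at h1
    have h2 : v ∈ I.R α ⊓ W := ⟨h1, hv⟩
    rw [hWI] at h2
    exact (Submodule.mem_bot K).1 h2
  · have h1 := hvt.trans e
    have h2 : (fun y => b (e.symm y)) = (Prod.fst : Fin a × Fin c → Fin a) := by
      funext y
      rw [← he, Equiv.apply_symm_apply]
    rw [h2] at h1
    exact h1

end T7
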