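import Pool.Agent.W_868bb7_h16.Match

/-!
# Maschke
-/

open Equiv Finset

namespace T7

variable {K : Type*} [Field K] [CharZero K]

/-- Maschke: a subspace stable under permutations has a complement stable under permutations,
inside a bigger stable subspace. -/
theorem exists_stable_compl {α : Type*} [Finite α] {U W : Submodule K (PM α → K)}
    (hU : ∀ g : Perm α, ∀ f ∈ U, tr g f ∈ U) (hW : ∀ g : Perm α, ∀ f ∈ W, tr g f ∈ W)
    (h : U ≤ W) : ∃ V : Submodule K (PM α → K), (∀ g : Perm α, ∀ f ∈ V, tr g f ∈ V) ∧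
      V ≤ W ∧ U ⊓ V = ⊥ ∧ U ⊔ V = W := by
  classical
  have : Fintype (Perm α) := Fintype.ofFinite _
  obtain ⟨C, hC⟩ := U.exists_isCompl
  obtain ⟨P, hP1, hP2⟩ : ∃ P : (PM α → K) →ₗ[K] (PM α → K), (∀ f, P f ∈ U) ∧
      ∀ f ∈ U, P f = f := by
    refine ⟨U.subtype ∘ₗ U.projectionOnto C hC, fun f => Submodule.coe_mem _, fun f hf => ?_⟩
    have := Submodule.projectionOnto_apply_left hC ⟨f, hf⟩
    simp only [LinearMap.comp_apply] at this ⊢
    rw [this]
    rfl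
  set n : K := (Fintype.card (Perm α) : K) with hn
  have hn0 : n ≠ 0 := by
    rw [hn]
    exact Nat.cast_ne_zero.2 Fintype.card_ne_zero
  let Q : (PM α → K) →ₗ[K] (PM α → K) :=
    n⁻¹ • ∑ g : Perm α, ((tr g).toLinearMap ∘ₗ P ∘ₗ (tr g⁻¹).toLinearMap)
  have hQ : ∀ f, Q f = n⁻¹ • ∑ g : Perm α, tr g (P (tr g⁻¹ f)) := by
    intro f
    simp [Q, LinearMap.sum_apply]
  have hQ1 : ∀ f, Q f ∈ U := by
    intro f
    rw [hQ]
    exact U.smul_mem _ (U.sum_mem fun g _ => hU g _ (hP1 _))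
  have hQ2 : ∀ f ∈ U, Q f = f := by
    intro f hf
    rw [hQ]
    have : ∀ g : Perm α, tr g (P (tr g⁻¹ f)) = f := by
      intro g
      rw [hP2 _ (hU _ _ hf), ← tr_mul, mul_inv_cancel, tr_one]
    simp only [this, Finset.sum_const, Finset.card_univ]
    rw [← Nat.cast_smul_eq_nsmul K, smul_smul, ← hn, inv_mul_cancel₀ hn0, one_smul]
  have hQ3 : ∀ (g : Perm α) f, Q (tr g f) = tr g (Q f) := by
    intro g f
    rw [hQ, hQ, map_smul, map_sum]
    congr 1
    rw [← Equiv.sum_comp (Equiv.mulLeft g)]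
    refine Finset.sum_congr rfl fun k _ => ?_
    rw [Equiv.coe_mulLeft, tr_mul g k, ← tr_mul (g * k)⁻¹ g]
    congr 4
    group
  refine ⟨W ⊓ LinearMap.ker Q, fun g f hf => ⟨hW g f hf.1, ?_⟩, inf_le_left, ?_, ?_⟩
  · have : Q f = 0 := hf.2
    show Q (tr g f) = 0
    rw [hQ3, this, map_zero]
  · rw [eq_bot_iff]
    intro f hf
    have h1 : Q f = 0 := hf.2.2
    rw [hQ2 f hf.1] at h1
    exact h1
  · refine le_antisymm (sup_le h inf_le_left) fun f hf => ?_
    rw [Submodule.mem_sup]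
    refine ⟨Q f, hQ1 f, f - Q f, ⟨W.sub_mem hf (h (hQ1 f)), ?_⟩, by abel⟩
    show Q (f - Q f) = 0
    rw [map_sub, hQ2 _ (hQ1 f), sub_self]

end T7
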