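import Pool.Agent.W_868bb7_h16.Star
import Pool.Agent.W_868bb7_h16.KeyA

/-!
# The star module of two different systems
-/

open Equiv Finset

namespace T7

variable {K : Type*} [Field K] [CharZero K]

/-- If `I ≤ I'` differ at `α` and not in smaller degrees, a complement of `I.R α` in `I'.R α` is
a non-zero star module with scalar `1 - δ`. -/
theorem Sys.exists_starMod {δ : K} (I I' : Sys K δ)
    (hle : ∀ (α : Type) [Finite α], I.R α ≤ I'.R α) {α : Type} [Fintype α] [DecidableEq α]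
    (hne : ¬ I'.R α ≤ I.R α)
    (hmin : ∀ β : Type, ∀ _ : Fintype β, Fintype.card β < Fintype.card α → I'.R β ≤ I.R β) :
    ∃ W : Submodule K (PM α → K), StarMod (1 - δ) W ∧ W ≤ I'.R α ∧ I.R α ⊓ W = ⊥ ∧ W ≠ ⊥ := by
  obtain ⟨W, hW1, hW2, hW3, hW4⟩ := exists_stable_compl (U := I.R α) (W := I'.R α)
    (fun g f hf => I.map g hf) (fun g f hf => I'.map g hf) (hle α)
  refine ⟨W, ⟨fun i j f hf => hW1 _ f hf, fun i f hf => ?_⟩, hW2, hW3, fun h => ?_⟩
  · have h1 : (δ - 1) • f + Y i f ∈ I.R α := by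
      rw [← sum_Dop]
      refine (I.R α).sum_mem fun j hj => ?_
      refine Sys.Dop_mem I I' (fun β hβ hc => hmin β hβ (by omega)) i j
        (Finset.ne_of_mem_erase hj).symm (hW2 hf)
    have h2 : (δ - 1) • f + Y i f ∈ W := by
      refine W.add_mem (W.smul_mem _ hf) ?_
      unfold Y
      exact W.sum_mem fun k _ => hW1 _ f hf
    have h3 : (δ - 1) • f + Y i f ∈ I.R α ⊓ W := ⟨h1, h2⟩
    rw [hW3, Submodule.mem_bot] at h3
    have h4 : Y i f = -((δ - 1) • f) := (neg_eq_of_add_eq_zero_right h3).symm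
    rw [h4, ← neg_smul, neg_sub]
  · rw [h, sup_bot_eq] at hW4
    exact hne hW4.ge

end T7
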