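import Mathlib

/-!
# Perfect matchings of a type, formal combinations of them (T7, MP_868bb7_ag)

`PM α`: perfect matchings of `α` = involutions without fixed points. Formal `K`-combinations of
perfect matchings of a finite type are functions `PM α → K`.
-/

open Equiv

namespace T7

/-- Perfect matchings of a type: involutions without fixed points. -/
structure PM (α : Type*) where
  /-- the partner of a point -/
  toFun : α → α
  inv' : ∀ x, toFun (toFun x) = x
  ne' : ∀ x, toFun x ≠ x

namespace PM

variable {α β γ : Type*}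

instance : CoeFun (PM α) (fun _ => α → α) := ⟨PM.toFun⟩

@[ext] theorem ext {m n : PM α} (h : ∀ x, m x = n x) : m = n := by
  cases m; cases n; congr; exact funext h

@[simp] theorem inv (m : PM α) (x : α) : m (m x) = x := m.inv' x

theorem ne (m : PM α) (x : α) : m x ≠ x := m.ne' x

@[simp] theorem mk_apply (f : α → α) (h h') (x : α) : (⟨f, h, h'⟩ : PM α) x = f x := rfl

theorem inj (m : PM α) {x y : α} (h : m x = m y) : x = y := by
  rw [← m.inv x, h, m.inv]

theorem eq_iff (m : PM α) {x y : α} : m x = y ↔ x = m y :=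
  ⟨fun h => by rw [← h, m.inv], fun h => by rw [h, m.inv]⟩

/-- transport of matchings along a bijection -/
def map (e : α ≃ β) : PM α ≃ PM β where
  toFun m := ⟨fun y => e (m (e.symm y)), fun y => by simp, fun y h =>
    m.ne (e.symm y) (by rw [← e.symm_apply_apply (m (e.symm y)), h])⟩
  invFun m := ⟨fun x => e.symm (m (e x)), fun x => by simp, fun x h =>
    m.ne (e x) (by rw [← e.apply_symm_apply (m (e x)), h])⟩
  left_inv m := by ext x; simp
  right_inv m := by ext x; simp

@[simp] theorem map_apply (e : α ≃ β) (m : PM α) (y : β) : map e m y = e (m (e.symm y)) := rfl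

@[simp] theorem map_symm (e : α ≃ β) : (map e).symm = map e.symm := rfl

theorem map_map (e : α ≃ β) (e' : β ≃ γ) (m : PM α) : map e' (map e m) = map (e.trans e') m := rfl

@[simp] theorem map_refl (m : PM α) : map (Equiv.refl α) m = m := rfl

/-- disjoint union of matchings -/
def sum (m : PM α) (n : PM β) : PM (α ⊕ β) :=
  ⟨Sum.map m n, fun x => by cases x <;> simp, fun x h => by
    cases x with
    | inl x => exact m.ne x (Sum.inl_injective h)
    | inr x => exact n.ne x (Sum.inr_injective h)⟩

@[simp] theorem sum_inl (m : PM α) (n : PM β) (x : α) : sum m n (Sum.inl x) = Sum.inl (m x) := rfl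
@[simp] theorem sum_inr (m : PM α) (n : PM β) (x : β) : sum m n (Sum.inr x) = Sum.inr (n x) := rfl

theorem sum_inj {m m' : PM α} {n n' : PM β} (h : sum m n = sum m' n') : m = m' ∧ n = n' := by
  constructor
  · ext x
    have : sum m n (Sum.inl x) = sum m' n' (Sum.inl x) := by rw [h]
    exact Sum.inl_injective this
  · ext x
    have : sum m n (Sum.inr x) = sum m' n' (Sum.inr x) := by rw [h]
    exact Sum.inr_injective this

/-- the only perfect matching of `Bool` -/
def bool : PM Bool := ⟨not, fun x => by simp, fun x => by cases x <;> simp⟩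

@[simp] theorem bool_apply (x : Bool) : bool x = !x := rfl

theorem eq_bool (m : PM Bool) : m = bool := by
  ext x
  have := m.ne x
  revert this
  rcases h : m x <;> cases x <;> simp

/-- disjoint copies -/
def copies {ι : Type*} (p : ι → PM α) : PM (α × ι) :=
  ⟨fun x => (p x.2 x.1, x.2), fun x => by simp, fun x h => (p x.2).ne x.1 (congrArg Prod.fst h)⟩

@[simp] theorem copies_apply {ι : Type*} (p : ι → PM α) (x : α) (i : ι) :
    copies p (x, i) = (p i x, i) := rfl

theorem copies_inj {ι : Type*} {p p' : ι → PM α} (h : copies p = copies p') : p = p' := by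
  funext i
  ext x
  have : copies p (x, i) = copies p' (x, i) := by rw [h]
  exact congrArg Prod.fst this

instance [Finite α] : Finite (PM α) :=
  Finite.of_injective PM.toFun fun _ _ h => PM.ext fun x => congrFun h x

noncomputable instance [Finite α] : Fintype (PM α) := Fintype.ofFinite _

/-- a matching of `α ⊕ β` that preserves the left summand is a disjoint union -/
theorem exists_sum (m : PM (α ⊕ β)) (h : ∀ x : α, ∃ y : α, m (Sum.inl x) = Sum.inl y) :
    ∃ m1 : PM α, ∃ m2 : PM β, m = sum m1 m2 := by
  have h2 : ∀ x : β, ∃ y : β, m (Sum.inr x) = Sum.inr y := by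
    intro x
    rcases hx : m (Sum.inr x) with y | y
    · obtain ⟨z, hz⟩ := h y
      rw [← hx, m.inv] at hz
      exact absurd hz (by simp)
    · exact ⟨y, rfl⟩
  choose f hf using h
  choose g hg using h2
  refine ⟨⟨f, fun x => ?_, fun x hx => ?_⟩, ⟨g, fun x => ?_, fun x hx => ?_⟩, ?_⟩
  · apply Sum.inl_injective (β := β)
    rw [← hf, ← hf, m.inv]
  · apply m.ne (Sum.inl x)
    rw [hf, hx]
  · apply Sum.inr_injective (α := α)
    rw [← hg, ← hg, m.inv]
  · apply m.ne (Sum.inr x)
    rw [hg, hx]
  · ext x
    rcases x with x | x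
    · simp [hf]
    · simp [hg]

/-- a matching of `α × ι` that preserves the second coordinate is a family of matchings -/
theorem exists_copies {ι : Type*} (m : PM (α × ι)) (h : ∀ x, (m x).2 = x.2) :
    ∃ p : ι → PM α, m = copies p := by
  refine ⟨fun i => ⟨fun x => (m (x, i)).1, fun x => ?_, fun x hx => ?_⟩, ?_⟩
  · have h1 : ((m (x, i)).1, i) = m (x, i) := Prod.ext rfl (h (x, i)).symm
    show (m ((m (x, i)).1, i)).1 = x
    rw [h1, m.inv]
  · exact m.ne (x, i) (Prod.ext hx (h (x, i)))
  · ext ⟨x, i⟩ 
    · rfl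
    · exact h (x, i)

end PM

variable {K : Type*} [Field K]
variable {α β γ : Type*}

/-- transport of formal combinations of matchings -/
def tr (e : α ≃ β) : (PM α → K) ≃ₗ[K] (PM β → K) :=
  LinearEquiv.funCongrLeft K K (PM.map e).symm

@[simp] theorem tr_apply (e : α ≃ β) (f : PM α → K) (m : PM β) :
    tr e f m = f (PM.map e.symm m) := rfl

theorem tr_tr (e : α ≃ β) (e' : β ≃ γ) (f : PM α → K) : tr e' (tr e f) = tr (e.trans e') f := rfl

@[simp] theorem tr_refl (f : PM α → K) : tr (Equiv.refl α) f = f := rfl

theorem tr_symm_tr (e : α ≃ β) (f : PM α → K) : tr e.symm (tr e f) = f := by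
  rw [tr_tr, Equiv.self_trans_symm, tr_refl]

theorem tr_tr_symm (e : α ≃ β) (f : PM β → K) : tr e (tr e.symm f) = f := by
  rw [tr_tr, Equiv.symm_trans_self, tr_refl]

theorem tr_one (f : PM α → K) : tr (1 : Perm α) f = f := rfl

theorem tr_mul (g h : Perm α) (f : PM α → K) : tr (g * h) f = tr g (tr h f) := rfl

open Classical in
/-- product of two combinations (disjoint union of matchings) -/
noncomputable def prod (f : PM α → K) (g : PM β → K) : PM (α ⊕ β) → K := fun m =>
  if h : ∃ p : PM α × PM β, PM.sum p.1 p.2 = m then f h.choose.1 * g h.choose.2 else 0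

theorem prod_sum (f : PM α → K) (g : PM β → K) (m : PM α) (n : PM β) :
    prod f g (PM.sum m n) = f m * g n := by
  have h : ∃ p : PM α × PM β, PM.sum p.1 p.2 = PM.sum m n := ⟨(m, n), rfl⟩
  rw [prod, dif_pos h]
  have := PM.sum_inj h.choose_spec
  rw [this.1, this.2]

theorem prod_of_not (f : PM α → K) (g : PM β → K) (m : PM (α ⊕ β)) (x : α) (y : β)
    (h : m (Sum.inl x) = Sum.inr y) : prod f g m = 0 := by
  rw [prod, dif_neg]
  rintro ⟨p, rfl⟩
  simp at h

omit [Field K] in
theorem prod_ext {F G : PM (α ⊕ β) → K} (h1 : ∀ m n, F (PM.sum m n) = G (PM.sum m n))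
    (h2 : ∀ m x y, m (Sum.inl x) = Sum.inr y → F m = G m) : F = G := by
  funext m
  by_cases h : ∀ x : α, ∃ y : α, m (Sum.inl x) = Sum.inl y
  · obtain ⟨m1, m2, rfl⟩ := m.exists_sum h
    exact h1 _ _
  · push Not at h
    obtain ⟨x, hx⟩ := h
    rcases hy : m (Sum.inl x) with y | y
    · exact absurd hy (hx y)
    · exact h2 m x y hy

/-- adding the chord joining the two new points -/
noncomputable def up (f : PM α → K) : PM (α ⊕ Bool) → K := prod f (fun _ => 1)

@[simp] theorem up_sum (f : PM α → K) (m : PM α) (n : PM Bool) : up f (PM.sum m n) = f m := by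
  rw [up, prod_sum, mul_one]

theorem up_of_ne (f : PM α → K) (m : PM (α ⊕ Bool)) (h : m (Sum.inr false) ≠ Sum.inr true) :
    up f m = 0 := by
  rcases hy : m (Sum.inr false) with y | y
  · refine prod_of_not _ _ m y false ?_
    rw [← hy, m.inv]
  · cases y
    · exact absurd hy (m.ne _)
    · exact absurd hy h

/-- contraction of the two last points (parameter `δ`):
`(dn δ f) m₁ = δ f (m₁ ⊔ chord) + ∑ₓ f ((x false) · (m₁ ⊔ chord))` -/
def dn [Fintype α] [DecidableEq α] (δ : K) (f : PM (α ⊕ Bool) → K) : PM α → K := fun m =>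
  δ * f (PM.sum m PM.bool) +
    ∑ x : α, tr (swap (Sum.inl x) (Sum.inr false) : Perm (α ⊕ Bool)) f (PM.sum m PM.bool)

open Classical in
/-- product over `ι` copies -/
noncomputable def pw {ι : Type*} [Fintype ι] (f : PM α → K) : PM (α × ι) → K := fun m =>
  if h : ∃ p : ι → PM α, PM.copies p = m then ∏ i, f (h.choose i) else 0

theorem pw_copies {ι : Type*} [Fintype ι] (f : PM α → K) (p : ι → PM α) :
    pw f (PM.copies p) = ∏ i, f (p i) := by
  have h : ∃ p' : ι → PM α, PM.copies p' = PM.copies p := ⟨p, rfl⟩
  rw [pw, dif_pos h, PM.copies_inj h.choose_spec]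

theorem pw_of_not {ι : Type*} [Fintype ι] (f : PM α → K) (m : PM (α × ι)) (x : α × ι)
    (h : (m x).2 ≠ x.2) : pw f m = 0 := by
  rw [pw, dif_neg]
  rintro ⟨p, rfl⟩
  exact h rfl

/-! ### linearity -/

theorem prod_add_left (f f' : PM α → K) (g : PM β → K) : prod (f + f') g = prod f g + prod f' g :=
  prod_ext (fun m n => by simp [prod_sum, add_mul])
    (fun m x y h => by simp [prod_of_not _ _ m x y h])

theorem prod_add_right (f : PM α → K) (g g' : PM β → K) :
    prod f (g + g') = prod f g + prod f g' :=
  prod_ext (fun m n => by simp [prod_sum, mul_add])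
    (fun m x y h => by simp [prod_of_not _ _ m x y h])

theorem prod_smul_left (c : K) (f : PM α → K) (g : PM β → K) : prod (c • f) g = c • prod f g :=
  prod_ext (fun m n => by simp [prod_sum, mul_assoc])
    (fun m x y h => by simp [prod_of_not _ _ m x y h])

theorem prod_smul_right (c : K) (f : PM α → K) (g : PM β → K) : prod f (c • g) = c • prod f g :=
  prod_ext (fun m n => by simp [prod_sum, mul_left_comm])
    (fun m x y h => by simp [prod_of_not _ _ m x y h])

theorem prod_zero_left (g : PM β → K) : prod (0 : PM α → K) g = 0 :=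
  prod_ext (fun m n => by simp [prod_sum]) (fun m x y h => by simp [prod_of_not _ _ m x y h])

theorem prod_zero_right (f : PM α → K) : prod f (0 : PM β → K) = 0 :=
  prod_ext (fun m n => by simp [prod_sum]) (fun m x y h => by simp [prod_of_not _ _ m x y h])

theorem up_add (f g : PM α → K) : up (f + g) = up f + up g := prod_add_left _ _ _

theorem up_smul (c : K) (f : PM α → K) : up (c • f) = c • up f := prod_smul_left _ _ _

theorem up_zero : up (0 : PM α → K) = 0 := prod_zero_left _

theorem dn_add [Fintype α] [DecidableEq α] (δ : K) (f g : PM (α ⊕ Bool) → K) :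
    dn δ (f + g) = dn δ f + dn δ g := by
  funext m
  simp only [dn, map_add, Pi.add_apply, Finset.sum_add_distrib, mul_add]
  ring

theorem dn_smul [Fintype α] [DecidableEq α] (δ c : K) (f : PM (α ⊕ Bool) → K) :
    dn δ (c • f) = c • dn δ f := by
  funext m
  simp only [dn, map_smul, Pi.smul_apply, smul_eq_mul, mul_add, Finset.mul_sum]
  ring

theorem dn_zero [Fintype α] [DecidableEq α] (δ : K) :
    dn δ (0 : PM (α ⊕ Bool) → K) = 0 := by
  funext m
  simp [dn]

end T7
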