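import Pool.Agent.W_868bb7_h16.Sys

/-!
# A relation system from data on `Fin (2 * r)` (interface to the category side)
-/

open Equiv Finset

namespace T7

/-- `false ↦ 0`, `true ↦ 1`, `inl i ↦ i + 2` -/
def eF (n : ℕ) : Fin n ⊕ Bool ≃ Fin (n + 2) where
  toFun x := match x with
    | Sum.inl i => i.succ.succ
    | Sum.inr false => 0
    | Sum.inr true => 1
  invFun i := Fin.cases (Sum.inr false) (fun j => Fin.cases (Sum.inr true) (fun k => Sum.inl k) j) i
  left_inv x := by rcases x with i | _ | _ <;> rfl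
  right_inv i := by
    refine Fin.cases rfl (fun j => ?_) i
    refine Fin.cases rfl (fun k => rfl) j

@[simp] theorem eF_inl (n : ℕ) (i : Fin n) : eF n (Sum.inl i) = i.succ.succ := rfl
@[simp] theorem eF_false (n : ℕ) : eF n (Sum.inr false) = 0 := rfl
@[simp] theorem eF_true (n : ℕ) : eF n (Sum.inr true) = 1 := rfl

variable {K : Type*} [Field K] {δ : K}

section ofFinAux

variable {α β : Type*}

theorem OfFin_map_sum (e : α ≃ β) (m : PM β) (n : PM Bool) :
    PM.map (Equiv.sumCongr e (Equiv.refl Bool)).symm (PM.sum m n) =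
      PM.sum (PM.map e.symm m) n := by
  ext x
  rcases x with x | x <;> simp

theorem OfFin_up_tr (e : α ≃ β) (f : PM α → K) :
    (T7.up (tr e f) : PM (β ⊕ Bool) → K) =
      tr (Equiv.sumCongr e (Equiv.refl Bool)) (T7.up f) := by
  refine prod_ext (fun m n => ?_) (fun m x y h => ?_)
  · rw [tr_apply, OfFin_map_sum, up_sum, up_sum, tr_apply]
  · have h1 : (PM.map (Equiv.sumCongr e (Equiv.refl Bool)).symm m) (Sum.inl (e.symm x)) =
        Sum.inr y := by
      simp [h]
    rw [T7.up, prod_of_not _ _ m x y h, tr_apply, T7.up, prod_of_not _ _ _ _ _ h1]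

theorem OfFin_dn_tr [Fintype α] [DecidableEq α] [Fintype β] [DecidableEq β] (e : α ≃ β)
    (f : PM (α ⊕ Bool) → K) :
    tr e (dn δ f) = dn δ (tr (Equiv.sumCongr e (Equiv.refl Bool)) f) := by
  funext m
  rw [tr_apply, dn, dn, tr_apply (Equiv.sumCongr e (Equiv.refl Bool)), OfFin_map_sum]
  congr 1
  refine Fintype.sum_equiv e _ _ fun x => ?_
  set E : α ⊕ Bool ≃ β ⊕ Bool := Equiv.sumCongr e (Equiv.refl Bool) with hE
  have h1 : swap (Sum.inl (e x)) (Sum.inr false) =
      (E.symm.trans (swap (Sum.inl x) (Sum.inr false))).trans E := by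
    rw [Equiv.symm_trans_swap_trans]
    rfl
  have h2 : E.trans (swap (Sum.inl (e x)) (Sum.inr false)) =
      (swap (Sum.inl x) (Sum.inr false)).trans E := by
    rw [h1]
    refine Equiv.ext fun y => ?_
    simp only [Equiv.trans_apply, Equiv.symm_apply_apply]
  rw [tr_tr, h2, ← tr_tr, tr_apply E, hE, OfFin_map_sum]

theorem OfFin_card {α : Type*} [Finite α] {r : ℕ} (e : α ⊕ Bool ≃ Fin (2 * r)) :
    ∃ r' : ℕ, r = r' + 1 ∧ Nonempty (α ≃ Fin (2 * r')) := by
  have h1 : Nat.card α + 2 = 2 * r := by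
    have h2 := Nat.card_congr e
    rw [Nat.card_sum, Nat.card_eq_fintype_card (α := Bool), Fintype.card_bool,
      Nat.card_eq_fintype_card (α := Fin (2 * r)), Fintype.card_fin] at h2
    exact h2
  obtain ⟨r', rfl⟩ : ∃ r', r = r' + 1 := ⟨r - 1, by omega⟩
  exact ⟨r', rfl, ⟨Finite.equivFinOfCardEq (by omega)⟩⟩

end ofFinAux

/-- The relation system given by spaces of combinations of matchings of `Fin (2 * r)`. -/
def Sys.ofFin (R' : ∀ r : ℕ, Submodule K (PM (Fin (2 * r)) → K))
    (hperm : ∀ (r : ℕ) (g : Perm (Fin (2 * r))) (f : PM (Fin (2 * r)) → K), f ∈ R' r →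
      tr g f ∈ R' r)
    (hup : ∀ (r : ℕ) (f : PM (Fin (2 * r)) → K), f ∈ R' r →
      (tr (eF (2 * r)) (T7.up f) : PM (Fin (2 * (r + 1))) → K) ∈ R' (r + 1))
    (hdn : ∀ (r : ℕ) (f : PM (Fin (2 * (r + 1))) → K), f ∈ R' (r + 1) →
      dn δ (tr (eF (2 * r)).symm (f : PM (Fin (2 * r + 2)) → K)) ∈ R' r)
    (h0 : R' 0 = ⊥) : Sys K δ where
  R α _ :=
    { carrier := {f | ∀ (r : ℕ) (e : α ≃ Fin (2 * r)), tr e f ∈ R' r}
      add_mem' := fun {f g} hf hg r e => by
        rw [map_add]; exact add_mem (hf r e) (hg r e)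
      zero_mem' := fun r e => by rw [map_zero]; exact zero_mem _
      smul_mem' := fun c f hf r e => by rw [map_smul]; exact Submodule.smul_mem _ _ (hf r e) }
  map := by
    intro α β _ _ e f hf r e'
    rw [tr_tr]
    exact hf r _
  up := by
    intro α _ f hf r e
    obtain ⟨r', rfl, ⟨e0⟩⟩ := OfFin_card e
    have h1 := hup r' _ (hf r' e0)
    rw [OfFin_up_tr, tr_tr] at h1
    set E : α ⊕ Bool ≃ Fin (2 * (r' + 1)) :=
      (Equiv.sumCongr e0 (Equiv.refl Bool)).trans (eF (2 * r')) with hE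
    have h2 : tr e (T7.up f) = tr (E.symm.trans e : Perm (Fin (2 * (r' + 1)))) (tr E (T7.up f)) := by
      rw [tr_tr, ← Equiv.trans_assoc, Equiv.self_trans_symm, Equiv.refl_trans]
    rw [h2]
    exact hperm _ _ _ h1
  down := by
    intro α _ _ f hf r e
    rw [OfFin_dn_tr]
    have h1 := hdn r _ (hf (r + 1) ((Equiv.sumCongr e (Equiv.refl Bool)).trans (eF (2 * r))))
    have h2 : tr (eF (2 * r)).symm
        (tr ((Equiv.sumCongr e (Equiv.refl Bool)).trans (eF (2 * r))) f) =
        tr (Equiv.sumCongr e (Equiv.refl Bool)) f := by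
      rw [← tr_tr, tr_symm_tr]
    rw [h2] at h1
    exact h1
  zero := by
    intro α _ _
    rw [eq_bot_iff]
    intro f hf
    have : IsEmpty (Fin (2 * 0)) := ⟨fun i => absurd i.2 (by omega)⟩
    have h1 := hf 0 (Equiv.equivOfIsEmpty α (Fin (2 * 0)))
    rw [h0, Submodule.mem_bot, LinearEquiv.map_eq_zero_iff] at h1
    exact (Submodule.mem_bot K).2 h1

theorem Sys.mem_ofFin (R' : ∀ r : ℕ, Submodule K (PM (Fin (2 * r)) → K))
    (hperm hup hdn h0) {α : Type} [Finite α] (r : ℕ) (e : α ≃ Fin (2 * r)) (f : PM α → K) :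
    f ∈ (Sys.ofFin (δ := δ) R' hperm hup hdn h0).R α ↔ tr e f ∈ R' r := by
  constructor
  · exact fun h => h r e
  · intro h r' e'
    obtain rfl : r = r' := by
      have h1 := Nat.card_congr (e.symm.trans e')
      rw [Nat.card_eq_fintype_card, Nat.card_eq_fintype_card, Fintype.card_fin,
        Fintype.card_fin] at h1
      omega
    have h2 : tr e' f = tr (e.symm.trans e' : Perm (Fin (2 * r))) (tr e f) := by
      rw [tr_tr, ← Equiv.trans_assoc, Equiv.self_trans_symm, Equiv.refl_trans]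
    rw [h2]
    exact hperm _ _ _ h

end T7
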