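import Pool.Agent.W_868bb7_h16.Class

/-!
# Rigidity: a system is determined by its first degree
-/

open Equiv Finset

namespace T7

variable {K : Type*} [Field K] [CharZero K] {δ : K}

/-- If `I` is non-zero in a degree not larger than the first degree of `J`, then `J ≤ I`. -/
theorem Sys.le_of_dep (I J : Sys K δ)
    (h : ∀ (β : Type) [Finite β], J.R β ≠ ⊥ → ∃ (γ : Type) (_ : Finite γ),
      Nat.card γ ≤ Nat.card β ∧ I.R γ ≠ ⊥) (α : Type) [Finite α] : J.R α ≤ I.R α := by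
  rcases I.compare J with hIJ | hJI
  · by_contra hne
    obtain ⟨a, c, -, -, hac, -, v, hv, hvI, ht⟩ := Sys.key I J hIJ ⟨α, inferInstance, hne⟩
    have hv0 : v ≠ 0 := by
      rintro rfl
      exact hvI (Submodule.zero_mem _)
    have hJ : J.R (Fin a × Fin c) ≠ ⊥ := by
      intro hb
      rw [hb, Submodule.mem_bot] at hv
      exact hv0 hv
    obtain ⟨γ, hγ, hcard, hI⟩ := h _ hJ
    obtain ⟨f₀, hf₀, hf₀0⟩ := Submodule.exists_mem_ne_zero_of_ne_bot hI
    refine hvI (I.mem_of_type hf₀ hf₀0 hac ?_ ht)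
    rw [Nat.card_prod, Nat.card_fin, Nat.card_fin] at hcard
    exact hcard
  · exact hJI α

omit [CharZero K] in
theorem prod_one_ne {α β : Type*} {f : PM α → K} (hf : f ≠ 0) (μ : PM β) :
    prod f (fun _ : PM β => (1 : K)) ≠ 0 := by
  obtain ⟨m, hm⟩ := Function.ne_iff.1 hf
  intro h
  apply hm
  have h1 := congrFun h (PM.sum m μ)
  rw [prod_sum, mul_one] at h1
  exact h1

/-- the matching `{0, 1}, {2, 3}, ...` of `Fin k × Bool` -/
def PM.flip (κ : Type*) : PM (κ × Bool) where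
  toFun x := (x.1, !x.2)
  inv' x := by simp
  ne' x h := by
    have := congrArg Prod.snd h
    simp at this

/-- The degrees in which a non-zero system is non-zero. -/
theorem Sys.ne_bot_iff (I : Sys K δ) {α₀ : Type} [Finite α₀] (h₀ : I.R α₀ ≠ ⊥) :
    ∃ a c : ℕ, 1 ≤ a ∧ 1 ≤ c ∧ Even c ∧ (a : K) = c - 1 + δ ∧
      ∀ (β : Type) [Finite β], I.R β ≠ ⊥ ↔ a * c ≤ Nat.card β ∧ Even (Nat.card β) := by
  classical
  obtain ⟨f₀, hf₀, hf₀0⟩ := Submodule.exists_mem_ne_zero_of_ne_bot h₀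
  obtain ⟨a, c, ha, hc, hac, hle, hmin, v, hv, hv0, ht⟩ := I.first hf₀ hf₀0
  have hev : Even c := by
    have h1 := ht.even_card hv0 ⟨0, ha⟩
    have h2 : (univ.filter (fun x : Fin a × Fin c => x.1 = ⟨0, ha⟩)).card = c := by
      have h3 : univ.filter (fun x : Fin a × Fin c => x.1 = ⟨0, ha⟩) =
          ({⟨0, ha⟩} : Finset (Fin a)) ×ˢ (univ : Finset (Fin c)) := by
        ext x
        rw [Finset.mem_filter, Finset.mem_product, Finset.mem_singleton]
        simp
      rw [h3, Finset.card_product, Finset.card_singleton, one_mul, Finset.card_univ,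
        Fintype.card_fin]
    rwa [h2] at h1
  refine ⟨a, c, ha, hc, hev, hac, fun β _ => ⟨fun hβ => ⟨?_, ?_⟩, fun hβ => ?_⟩⟩
  · by_contra hlt
    exact hβ (hmin β (not_le.1 hlt))
  · obtain ⟨g, -, hg0⟩ := Submodule.exists_mem_ne_zero_of_ne_bot hβ
    obtain ⟨m, -⟩ := Function.ne_iff.1 hg0
    have := Fintype.ofFinite β
    rw [Nat.card_eq_fintype_card]
    exact m.even_card
  · obtain ⟨k, hk⟩ : ∃ k, Nat.card β = a * c + 2 * k := by
      obtain ⟨x, hx⟩ := hβ.2
      obtain ⟨y, hy⟩ := hev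
      refine ⟨x - a * y, ?_⟩
      have h1 := hβ.1
      rw [hx, hy] at h1 ⊢
      have h2 : a * (y + y) = 2 * (a * y) := by ring
      rw [h2] at h1 ⊢
      omega
    have hcard : Nat.card ((Fin a × Fin c) ⊕ (Fin k × Bool)) = Nat.card β := by
      rw [Nat.card_sum, Nat.card_prod, Nat.card_prod, Nat.card_fin, Nat.card_fin, Nat.card_fin,
        hk]
      simp [mul_comm]
    have e : ((Fin a × Fin c) ⊕ (Fin k × Bool)) ≃ β := (Finite.card_eq.1 hcard).some
    have h1 := I.map e (I.prod_mem hv (fun _ : PM (Fin k × Bool) => (1 : K)))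
    intro hb
    rw [hb, Submodule.mem_bot] at h1
    exact prod_one_ne hv0 (PM.flip (Fin k)) ((tr e).map_eq_zero_iff.1 h1)

end T7
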