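import Pool.Agent.W_868bb7_h16.Uniq

/-!
# Deleting the last block
-/

open Equiv Finset

namespace T7

variable {K : Type*} [Field K] {β γ S : Type*} [Fintype β] [DecidableEq β] [Fintype γ]
  [DecidableEq γ] [DecidableEq S]

/-- the labels on `β ⊕ γ`: the blocks of `β` and one more block `γ` -/
def bR (b : β → S) : β ⊕ γ → Option S := Sum.elim (fun x => some (b x)) (fun _ => none)

omit [Fintype β] [DecidableEq β] [Fintype γ] [DecidableEq γ] [DecidableEq S] in
@[simp] theorem bR_inl (b : β → S) (x : β) : bR (γ := γ) b (Sum.inl x) = some (b x) := rfl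

omit [Fintype β] [DecidableEq β] [Fintype γ] [DecidableEq γ] [DecidableEq S] in
@[simp] theorem bR_inr (b : β → S) (x : γ) : bR b (Sum.inr x) = none := rfl

omit [Fintype β] [Fintype γ] in
theorem sum_map_swap (i j : β) (m : PM β) (μ : PM γ) :
    PM.sum (PM.map (swap i j) m) μ = PM.map (swap (Sum.inl i) (Sum.inl j)) (PM.sum m μ) := by
  have hl : ∀ y : β, swap (Sum.inl i : β ⊕ γ) (Sum.inl j) (Sum.inl y) =
      Sum.inl (swap i j y) := fun y => by rw [← Equiv.Perm.sumCongr_swap_refl]; rfl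
  have hr : ∀ y : γ, swap (Sum.inl i : β ⊕ γ) (Sum.inl j) (Sum.inr y) = Sum.inr y :=
    fun y => by rw [← Equiv.Perm.sumCongr_swap_refl]; rfl
  ext x
  rcases x with x | x
  · simp only [PM.map_apply, Equiv.symm_swap, hl, PM.sum_inl]
  · simp only [PM.map_apply, Equiv.symm_swap, hr, PM.sum_inr]

omit [Fintype β] [Fintype γ] in
theorem tr_swap_sum (i j : β) (v : PM (β ⊕ γ) → K) (μ : PM γ) :
    tr (swap i j) (fun m => v (PM.sum m μ)) =
      fun m => tr (swap (Sum.inl i : β ⊕ γ) (Sum.inl j)) v (PM.sum m μ) := by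
  funext m
  rw [tr_apply, tr_apply, Equiv.symm_swap, Equiv.symm_swap, sum_map_swap]

/-- deleting the last block -/
theorem IsType.delete {b : β → S} {v : PM (β ⊕ γ) → K} (hv : IsType (bR b) v) (μ : PM γ) :
    IsType b (fun m => v (PM.sum m μ)) := by
  refine ⟨fun i j h => ?_, fun i j h => ?_⟩
  · rw [tr_swap_sum, hv.inv (Sum.inl i) (Sum.inl j) (by simp [h])]
  · have h1 := hv.rel (Sum.inl i) (Sum.inl j) (by simpa using h)
    have h2 : univ.filter (fun k : β ⊕ γ => bR b k = bR b (Sum.inl i : β ⊕ γ)) =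
        (univ.filter (fun k => b k = b i)).map ⟨Sum.inl, Sum.inl_injective⟩ := by
      ext k
      rcases k with k | k <;> simp
    rw [h2, Finset.sum_map] at h1
    funext m
    have h3 := congrFun h1 (PM.sum m μ)
    simp only [Pi.add_apply, Finset.sum_apply, Pi.zero_apply, Function.Embedding.coeFn_mk] at h3
    simp only [Pi.add_apply, Finset.sum_apply, Pi.zero_apply]
    rw [← h3]
    congr 1
    refine Finset.sum_congr rfl fun k _ => ?_
    rw [tr_swap_sum]

/-- the value does not depend on the matching of the last block -/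
theorem IsType.delete_eq {b : β → S} {v : PM (β ⊕ γ) → K} (hv : IsType (bR b) v) (m : PM β)
    (μ μ' : PM γ) : v (PM.sum m μ) = v (PM.sum m μ') := by
  refine eq_of_agree hv.inv _ _ fun x hx => ?_
  rcases x with x | x
  · exact absurd rfl hx
  · exact ⟨rfl, rfl⟩

theorem inner_pos {b : β → S} {v : PM (β ⊕ γ) → ℚ} (hv : IsType (bR b) v) (h0 : v ≠ 0)
    (μ : PM γ) :
    ∑ m, prod (fun m => v (PM.sum m μ)) (fun _ : PM γ => (1 : ℚ)) m * v m ≠ 0 := by
  have key : ∀ (m1 : PM β) (m2 : PM γ),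
      prod (fun m => v (PM.sum m μ)) (fun _ : PM γ => (1 : ℚ)) (PM.sum m1 m2) *
        v (PM.sum m1 m2) = v (PM.sum m1 μ) * v (PM.sum m1 μ) := by
    intro m1 m2
    rw [prod_sum, mul_one, hv.delete_eq m1 m2 μ]
  obtain ⟨m₀, hm₀, hm₁⟩ := hv.exists_inside h0
  have hs : ∀ x : β, ∃ y : β, m₀ (Sum.inl x) = Sum.inl y := by
    intro x
    rcases hx : m₀ (Sum.inl x) with y | y
    · exact ⟨y, rfl⟩
    · have := hm₀ (Sum.inl x)
      rw [hx] at this
      simp at this
  obtain ⟨n1, n2, rfl⟩ := m₀.exists_sum hs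
  refine ne_of_gt (Finset.sum_pos' (fun m _ => ?_) ⟨PM.sum n1 n2, Finset.mem_univ _, ?_⟩)
  · by_cases h : ∀ x : β, ∃ y : β, m (Sum.inl x) = Sum.inl y
    · obtain ⟨m1, m2, rfl⟩ := m.exists_sum h
      rw [key]
      exact mul_self_nonneg _
    · push Not at h
      obtain ⟨x, hx⟩ := h
      rcases hy : m (Sum.inl x) with y | y
      · exact absurd hy (hx y)
      · rw [prod_of_not _ _ m x y hy, zero_mul]
  · rw [key]
    rw [hv.delete_eq n1 n2 μ] at hm₁
    exact mul_self_pos.2 hm₁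

end T7
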