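import Pool.Agent.W_868bb7_h16.Uniq

/-!
# Orthogonal decomposition over `ℚ`
-/

open Equiv Finset

namespace T7

variable {α : Type*} [Fintype α] [DecidableEq α]

/-- over `ℚ`: orthogonal decomposition with respect to a subspace -/
theorem exists_orth (U : Submodule ℚ (PM α → ℚ)) (v : PM α → ℚ) :
    ∃ v' ∈ U, ∀ u ∈ U, ∑ m, u m * (v m - v' m) = 0 := by
  classical
  set B : (PM α → ℚ) →ₗ[ℚ] (PM α → ℚ) →ₗ[ℚ] ℚ := LinearMap.mk₂ ℚ (fun f g => ∑ m, g m * f m)
    (fun f f' g => by simp only [Pi.add_apply, mul_add, Finset.sum_add_distrib])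
    (fun c f g => by
      simp only [Pi.smul_apply, smul_eq_mul, Finset.mul_sum]
      exact Finset.sum_congr rfl fun m _ => by ring)
    (fun f g g' => by simp only [Pi.add_apply, add_mul, Finset.sum_add_distrib])
    (fun c f g => by
      simp only [Pi.smul_apply, smul_eq_mul, Finset.mul_sum]
      exact Finset.sum_congr rfl fun m _ => by ring) with hB
  have hBa : ∀ f g, B f g = ∑ m, g m * f m := fun f g => rfl
  set T : U →ₗ[ℚ] (U →ₗ[ℚ] ℚ) := (B.domRestrict₁₂ U U) with hT
  have hTa : ∀ x y : U, T x y = ∑ m, (y : PM α → ℚ) m * (x : PM α → ℚ) m := fun x y => rfl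
  have hinj : Function.Injective T := by
    rw [← LinearMap.ker_eq_bot, LinearMap.ker_eq_bot']
    intro x hx
    have h1 : T x x = 0 := by rw [hx]; rfl
    rw [hTa] at h1
    rw [Finset.sum_eq_zero_iff_of_nonneg fun m _ => mul_self_nonneg _] at h1
    apply Subtype.ext
    funext m
    exact mul_self_eq_zero.1 (h1 m (Finset.mem_univ m))
  have hsurj : Function.Surjective T := by
    refine (LinearMap.injective_iff_surjective_of_finrank_eq_finrank ?_).1 hinj
    exact (Subspace.dual_finrank_eq (K := ℚ) (V := U)).symm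
  obtain ⟨v', hv'⟩ := hsurj ((B v).comp U.subtype)
  refine ⟨v', v'.2, fun u hu => ?_⟩
  have h2 : T v' ⟨u, hu⟩ = B v u := by rw [hv']; rfl
  rw [hTa, hBa] at h2
  simp only [mul_sub, Finset.sum_sub_distrib]
  rw [← h2, sub_self]

theorem RowB_adj (i j : α) (w x : PM α → ℚ) :
    ∑ m, w m * tr (swap i j) x m = ∑ m, tr (swap i j) w m * x m := by
  rw [← Equiv.sum_comp (PM.map (swap i j))]
  refine Finset.sum_congr rfl fun m _ => ?_
  rw [tr_apply, tr_apply, ← PM.map_symm, Equiv.symm_apply_apply, PM.map_symm, symm_swap]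

theorem RowB_stable (u : PM α → ℚ) (g : Perm α) {w : PM α → ℚ}
    (hw : w ∈ Submodule.span ℚ (Set.range fun g : Perm α => tr g u)) :
    tr g w ∈ Submodule.span ℚ (Set.range fun g : Perm α => tr g u) := by
  induction hw using Submodule.span_induction with
  | mem w hw =>
    obtain ⟨h, rfl⟩ := hw
    exact Submodule.subset_span ⟨g * h, rfl⟩
  | zero => rw [map_zero]; exact zero_mem _
  | add a b _ _ ha hb => rw [map_add]; exact add_mem ha hb
  | smul c a _ ha => rw [map_smul]; exact Submodule.smul_mem _ c ha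

theorem RowB_zero {U : Submodule ℚ (PM α → ℚ)} {z : PM α → ℚ} (hz : z ∈ U)
    (h : ∀ w ∈ U, ∑ m, w m * z m = 0) : z = 0 := by
  have h1 := h z hz
  rw [Finset.sum_eq_zero_iff_of_nonneg fun m _ => mul_self_nonneg _] at h1
  funext m
  exact mul_self_eq_zero.1 (h1 m (Finset.mem_univ m))

/-- `v` lies in the span of the translates of `u` if `v` is of type `b` and `⟨u, v⟩ ≠ 0`: both
components of `v` with respect to the stable subspace `U` spanned by the translates of `u` are
of type `b`, so they are proportional to `v`. -/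
theorem mem_span_of_inner_ne {S : Type*} [DecidableEq S] {b : α → S} {v : PM α → ℚ}
    (hv : IsType b v) (u : PM α → ℚ) (h : ∑ m, u m * v m ≠ 0) :
    v ∈ Submodule.span ℚ (Set.range fun g : Perm α => tr g u) := by
  set U := Submodule.span ℚ (Set.range fun g : Perm α => tr g u) with hU
  obtain ⟨v', hv', horth⟩ := exists_orth U v
  have hst : ∀ (g : Perm α), ∀ w ∈ U, tr g w ∈ U := fun g w hw => RowB_stable u g hw
  have hin : ∀ w ∈ U, ∑ m, w m * v' m = ∑ m, w m * v m := by
    intro w hw
    have h1 := horth w hw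
    simp only [mul_sub, Finset.sum_sub_distrib] at h1
    linarith
  have hinτ : ∀ i j : α, ∀ w ∈ U, ∑ m, w m * tr (swap i j) v' m =
      ∑ m, w m * tr (swap i j) v m := by
    intro i j w hw
    rw [RowB_adj, RowB_adj, hin _ (hst _ w hw)]
  have htype : IsType b v' := by
    refine ⟨fun i j hij => ?_, fun i₀ j hij => ?_⟩
    · have h1 : tr (swap i j) v' - v' = 0 := by
        refine RowB_zero (sub_mem (hst _ _ hv') hv') fun w hw => ?_
        simp only [Pi.sub_apply, mul_sub, Finset.sum_sub_distrib]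
        rw [hinτ i j w hw, hin w hw, hv.inv i j hij, sub_self]
      exact sub_eq_zero.1 h1
    · refine RowB_zero (add_mem hv' (sum_mem fun i _ => hst _ _ hv')) fun w hw => ?_
      have h2 := hv.rel i₀ j hij
      have h3 : ∑ m, w m * (v + ∑ i ∈ univ.filter (fun i => b i = b i₀), tr (swap i j) v) m = 0 := by
        rw [h2]; simp
      rw [← h3]
      simp only [Pi.add_apply, mul_add, Finset.sum_add_distrib, Finset.sum_apply, Finset.mul_sum]
      rw [hin w hw]
      congr 1
      rw [Finset.sum_comm, Finset.sum_comm (s := (univ : Finset (PM α)))]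
      exact Finset.sum_congr rfl fun i _ => hinτ i j w hw
  have huU : u ∈ U := Submodule.subset_span ⟨1, rfl⟩
  have hne : v' ≠ 0 := by
    rintro rfl
    apply h
    rw [← hin u huU]
    simp
  obtain ⟨m₀, hm₀, hm0⟩ := htype.exists_inside hne
  have h4 := hv.smul_eq htype m₀ hm₀
  have h5 : v = (v' m₀)⁻¹ • (v m₀ • v') := by
    rw [← h4, smul_smul, inv_mul_cancel₀ hm0, one_smul]
  rw [h5]
  exact U.smul_mem _ (U.smul_mem _ hv')

end T7
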