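import Pool.Agent.W_868bb7_h16.Sys2
import Pool.Agent.W_868bb7_h16.RowA
import Pool.Agent.W_868bb7_h16.RowB

/-!
# Adding a row
-/

open Equiv Finset

namespace T7

/-- a vector of block type over `K` with value `1` at an inside matching has rational values -/
theorem IsType.exists_rat {K : Type*} [Field K] [CharZero K] {α S : Type*} [Fintype α]
    [DecidableEq α] [DecidableEq S] {b : α → S} {v : PM α → K} (hv : IsType b v) {m₀ : PM α}
    (hm₀ : ∀ x, b (m₀ x) = b x) (h1 : v m₀ = 1) :
    ∃ w : PM α → ℚ, IsType b w ∧ ∀ m, (w m : K) = v m := by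
  have hmem : ∀ m : PM α, v m ∈ (Rat.castHom K).range.toAddSubgroup := by
    refine hv.mem_of_inside _ (fun n x hn hx => ?_) (fun m hm => ?_)
    · obtain ⟨q, hq⟩ := hx
      have hn' : (n : K) ≠ 0 := Nat.cast_ne_zero.2 hn
      refine ⟨q / n, ?_⟩
      have h2 : (q : K) = (n : K) * x := hq
      show ((q / n : ℚ) : K) = x
      rw [Rat.cast_div, Rat.cast_natCast, h2]
      field_simp
    · refine ⟨1, ?_⟩
      have h2 : v m = v m₀ := eq_of_agree hv.inv m m₀ fun x _ => ⟨hm x, hm₀ x⟩
      show ((1 : ℚ) : K) = v m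
      rw [h2, h1, Rat.cast_one]
  choose w hw using hmem
  have hw' : ∀ m, (w m : K) = v m := hw
  refine ⟨w, ⟨fun i j hij => ?_, fun i₀ j hij => ?_⟩, hw'⟩
  · funext m
    apply Rat.cast_injective (α := K)
    have h2 := congrFun (hv.inv i j hij) m
    rw [tr_apply] at h2 ⊢
    rw [hw', hw', h2]
  · funext m
    apply Rat.cast_injective (α := K)
    have h2 := congrFun (hv.rel i₀ j hij) m
    simp only [Pi.add_apply, Finset.sum_apply, tr_apply, Pi.zero_apply] at h2 ⊢
    push_cast
    simp only [hw']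
    exact h2

/-- casts of products -/
private theorem cast_prod {K : Type*} [Field K] [CharZero K] {β γ : Type*} (f : PM β → ℚ)
    (g : PM γ → ℚ) :
    (fun m => ((prod f g m : ℚ) : K)) = prod (fun m => (f m : K)) (fun m => (g m : K)) := by
  refine prod_ext (fun m n => ?_) (fun m x y h => ?_)
  · rw [prod_sum, prod_sum, Rat.cast_mul]
  · rw [prod_of_not _ _ m x y h, prod_of_not _ _ m x y h, Rat.cast_zero]

/-- adding a row -/
theorem Sys.row {K : Type*} [Field K] [CharZero K] {δ : K} (I : Sys K δ) {β γ S : Type}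
    [Fintype β] [DecidableEq β] [Fintype γ] [DecidableEq γ] [DecidableEq S] {b : β → S}
    {v : PM (β ⊕ γ) → K} (hv : IsType (bR b) v) (μ : PM γ)
    (h : (fun m => v (PM.sum m μ)) ∈ I.R β) : v ∈ I.R (β ⊕ γ) := by
  by_cases h0 : v = 0
  · rw [h0]
    exact Submodule.zero_mem _
  obtain ⟨m₀, hm₀, hne⟩ := hv.exists_inside h0
  have hv' : IsType (bR b) ((v m₀)⁻¹ • v) := hv.smul _
  have h1 : ((v m₀)⁻¹ • v) m₀ = 1 := by
    rw [Pi.smul_apply, smul_eq_mul, inv_mul_cancel₀ hne]
  obtain ⟨w, hw, hwv⟩ := hv'.exists_rat hm₀ h1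
  have hw0 : w ≠ 0 := by
    rintro rfl
    have h2 := hwv m₀
    rw [h1, Pi.zero_apply, Rat.cast_zero] at h2
    exact zero_ne_one h2
  have hspan := mem_span_of_inner_ne hw _ (inner_pos hw hw0 μ)
  have hu : (fun m => ((prod (fun m => w (PM.sum m μ)) (fun _ : PM γ => (1 : ℚ)) m : ℚ) : K)) ∈
      I.R (β ⊕ γ) := by
    rw [cast_prod]
    refine I.prod_mem ?_ _
    have h3 : (fun m => ((w (PM.sum m μ) : ℚ) : K)) = (v m₀)⁻¹ • fun m => v (PM.sum m μ) := by
      funext m
      rw [hwv]
      rfl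
    rw [h3]
    exact Submodule.smul_mem _ _ h
  have key : ∀ f ∈ Submodule.span ℚ (Set.range fun g : Perm (β ⊕ γ) =>
      tr g (prod (fun m => w (PM.sum m μ)) (fun _ : PM γ => (1 : ℚ)))),
      (fun m => ((f m : ℚ) : K)) ∈ I.R (β ⊕ γ) := by
    intro f hf
    induction hf using Submodule.span_induction with
    | mem x hx =>
      obtain ⟨g, rfl⟩ := hx
      exact I.map g hu
    | zero =>
      have h4 : (fun m : PM (β ⊕ γ) => (((0 : PM (β ⊕ γ) → ℚ) m : ℚ) : K)) = 0 := by
        funext m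
        simp
      rw [h4]
      exact Submodule.zero_mem _
    | add x y _ _ hx hy =>
      have h4 : (fun m : PM (β ⊕ γ) => (((x + y) m : ℚ) : K)) =
          (fun m => ((x m : ℚ) : K)) + fun m => ((y m : ℚ) : K) := by
        funext m
        simp
      rw [h4]
      exact Submodule.add_mem _ hx hy
    | smul a x _ hx =>
      have h4 : (fun m : PM (β ⊕ γ) => (((a • x) m : ℚ) : K)) =
          (a : K) • fun m => ((x m : ℚ) : K) := by
        funext m
        simp
      rw [h4]
      exact Submodule.smul_mem _ _ hx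
  have h5 := key w hspan
  have h6 : v = v m₀ • fun m => ((w m : ℚ) : K) := by
    funext m
    rw [Pi.smul_apply, smul_eq_mul, hwv, Pi.smul_apply, smul_eq_mul, mul_inv_cancel_left₀ hne]
  rw [h6]
  exact Submodule.smul_mem _ _ h5

end T7
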