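import Pool.Agent.W_868bb7_h16.Sys

/-!
# The star identity, contraction at arbitrary points, basic facts on `Dop`
-/

open Equiv Finset

namespace T7

variable {K : Type*} [Field K]

/-- the star identity: `∑_{j ≠ i} D_{ij} = (δ - 1) + Y_i` -/
theorem sum_Dop {α : Type*} [Fintype α] [DecidableEq α] (δ : K) (i : α) (f : PM α → K) :
    ∑ j ∈ univ.erase i, Dop δ i j f = (δ - 1) • f + Y i f := by
  funext m
  rw [Finset.sum_apply]
  simp only [Dop]
  rw [Finset.sum_ite_eq, if_pos (Finset.mem_erase.2 ⟨m.ne i, Finset.mem_univ _⟩)]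
  rfl

/-- all the points except `i`, `j`, and these two -/
def eij {α : Type*} [DecidableEq α] (i j : α) (h : i ≠ j) :
    {x : α // x ≠ i ∧ x ≠ j} ⊕ Bool ≃ α where
  toFun x := match x with
    | Sum.inl x => x.1
    | Sum.inr false => i
    | Sum.inr true => j
  invFun x := if hi : x = i then Sum.inr false else if hj : x = j then Sum.inr true else
    Sum.inl ⟨x, hi, hj⟩
  left_inv x := by
    rcases x with x | _ | _
    · simp [x.2.1, x.2.2]
    · simp
    · simp [h.symm]
  right_inv x := by
    by_cases hi : x = i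
    · simp [hi]
    · by_cases hj : x = j
      · simp [hj, h.symm]
      · simp [hi, hj]

@[simp] theorem eij_inl {α : Type*} [DecidableEq α] (i j : α) (h : i ≠ j)
    (x : {x : α // x ≠ i ∧ x ≠ j}) : eij i j h (Sum.inl x) = x.1 := rfl
@[simp] theorem eij_false {α : Type*} [DecidableEq α] (i j : α) (h : i ≠ j) :
    eij i j h (Sum.inr false) = i := rfl
@[simp] theorem eij_true {α : Type*} [DecidableEq α] (i j : α) (h : i ≠ j) :
    eij i j h (Sum.inr true) = j := rfl

/-- `Dop` is contraction followed by adding the chord -/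
theorem Dop_eq {α : Type*} [Fintype α] [DecidableEq α] (δ : K) (i j : α) (h : i ≠ j)
    (f : PM α → K) :
    Dop δ i j f = tr (eij i j h) (up (dn δ (tr (eij i j h).symm f))) := by
  funext m
  rw [tr_apply]
  have hf0 : PM.map (eij i j h).symm m (Sum.inr false) = (eij i j h).symm (m i) := rfl
  by_cases hm : m i = j
  · -- the matching is a sum
    have hft : PM.map (eij i j h).symm m (Sum.inr false) = Sum.inr true := by
      rw [hf0, hm, Equiv.symm_apply_eq]
      rfl
    have htf : PM.map (eij i j h).symm m (Sum.inr true) = Sum.inr false := by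
      rw [PM.eq_iff, hft]
    obtain ⟨m1, m2, h12⟩ := (PM.map (eij i j h).symm m).exists_sum (fun x => by
      rcases hx : PM.map (eij i j h).symm m (Sum.inl x) with y | y
      · exact ⟨y, rfl⟩
      · exfalso
        rw [PM.eq_iff] at hx
        cases y
        · rw [hft] at hx
          exact absurd hx (by simp)
        · rw [htf] at hx
          exact absurd hx (by simp))
    have hm2 : m2 = PM.bool := PM.eq_bool m2
    subst hm2
    have hmm : PM.map (eij i j h) (PM.sum m1 PM.bool) = m := by
      rw [← h12, PM.map_map, Equiv.symm_trans_self, PM.map_refl]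
    rw [h12, up_sum]
    unfold Dop dn
    rw [if_pos hm]
    have hF : ∀ m' : PM ({x : α // x ≠ i ∧ x ≠ j} ⊕ Bool),
        tr (eij i j h).symm f m' = f (PM.map (eij i j h) m') := fun m' => rfl
    rw [hF, hmm]
    -- the terms of the sum
    have hterm : ∀ x : {x : α // x ≠ i ∧ x ≠ j},
        tr (swap (Sum.inl x) (Sum.inr false) : Perm ({x : α // x ≠ i ∧ x ≠ j} ⊕ Bool))
          (tr (eij i j h).symm f) (PM.sum m1 PM.bool) = tr (swap i x.1) f m := by
      intro x
      have hkey : (swap (Sum.inl x) (Sum.inr false) :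
          Perm ({x : α // x ≠ i ∧ x ≠ j} ⊕ Bool)).symm.trans (eij i j h) =
            (eij i j h).trans (swap i x.1 : Perm α).symm := by
        have h1 : (swap (Sum.inl x) (Sum.inr false) :
            Perm ({x : α // x ≠ i ∧ x ≠ j} ⊕ Bool)).symm = swap (Sum.inr false) (Sum.inl x) := by
          rw [Equiv.symm_swap, Equiv.swap_comm]
        have h2 : (swap i x.1 : Perm α).symm = swap (eij i j h (Sum.inr false))
            (eij i j h (Sum.inl x)) := by
          rw [Equiv.symm_swap]
          rfl
        rw [h1, h2]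
        refine Equiv.ext fun y => ?_
        show eij i j h (swap (Sum.inr false) (Sum.inl x) y) =
          swap (eij i j h (Sum.inr false)) (eij i j h (Sum.inl x)) (eij i j h y)
        rw [Equiv.swap_apply_def, Equiv.swap_apply_def]
        simp only [EmbeddingLike.apply_eq_iff_eq]
        split_ifs <;> rfl
      rw [tr_apply, hF, tr_apply, PM.map_map, ← hmm, PM.map_map, hkey]
    rw [Finset.sum_congr rfl fun x _ => hterm x]
    -- the term `j`
    have hj : tr (swap i j) f m = f m := by
      rw [tr_apply]
      congr 1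
      ext y
      rw [PM.map_apply, Equiv.symm_symm, Equiv.symm_swap]
      have hmj : m j = i := by rw [PM.eq_iff, hm]
      by_cases hy : y = i
      · subst hy
        rw [Equiv.swap_apply_left, hmj, Equiv.swap_apply_left, hm]
      · by_cases hy' : y = j
        · subst hy'
          rw [Equiv.swap_apply_right, hm, Equiv.swap_apply_right, hmj]
        · rw [Equiv.swap_apply_of_ne_of_ne hy hy', Equiv.swap_apply_of_ne_of_ne]
          · intro h3
            rw [PM.eq_iff, hm] at h3
            exact hy' h3
          · intro h3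
            rw [PM.eq_iff, hmj] at h3
            exact hy h3
    have hY : Y i f m = f m + ∑ x : {x : α // x ≠ i ∧ x ≠ j}, tr (swap i x.1) f m := by
      unfold Y
      rw [Finset.sum_apply, ← Finset.add_sum_erase (univ.erase i) (fun k => tr (swap i k) f m)
        (Finset.mem_erase.2 ⟨h.symm, Finset.mem_univ j⟩), hj]
      congr 1
      refine Finset.sum_subtype _ (fun x => ?_) (fun k => tr (swap i k) f m)
      rw [Finset.mem_erase, Finset.mem_erase]
      constructor
      · rintro ⟨h3, h4, -⟩
        exact ⟨h4, h3⟩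
      · rintro ⟨h3, h4⟩
        exact ⟨h4, h3, Finset.mem_univ _⟩
    rw [hY]
    ring
  · unfold Dop
    rw [if_neg hm, up_of_ne]
    rw [hf0]
    intro h3
    rw [Equiv.symm_apply_eq] at h3
    exact hm h3

/-- if the contraction of `f ∈ I'` at `i, j` lies in `I` then so does `Dop δ i j f` -/
theorem Sys.Dop_mem {δ : K} (I I' : Sys K δ) {α : Type} [Fintype α] [DecidableEq α]
    (h : ∀ β : Type, ∀ _ : Fintype β, Fintype.card β + 2 = Fintype.card α → I'.R β ≤ I.R β)
    (i j : α) (hij : i ≠ j) {f : PM α → K} (hf : f ∈ I'.R α) : Dop δ i j f ∈ I.R α := by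
  rw [Dop_eq δ i j hij f]
  refine I.map _ (I.up (h {x : α // x ≠ i ∧ x ≠ j} inferInstance ?_ (I'.down (I'.map _ hf))))
  have h1 := Fintype.card_congr (eij i j hij)
  rw [Fintype.card_sum, Fintype.card_bool] at h1
  exact h1

/-- if all the contractions and reinsertions vanish, then `Y i` acts by `1 - δ` -/
theorem Y_eq_of_Dop {α : Type*} [Fintype α] [DecidableEq α] (δ : K) (i : α) (f : PM α → K)
    (h : ∀ j, j ≠ i → Dop δ i j f = 0) : Y i f = (1 - δ) • f := by
  have h1 := sum_Dop δ i f
  rw [Finset.sum_eq_zero (fun j hj => h j (Finset.ne_of_mem_erase hj))] at h1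
  have h2 : Y i f = -((δ - 1) • f) := (neg_eq_of_add_eq_zero_right h1.symm).symm
  rw [h2, ← neg_smul, neg_sub]

end T7
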