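import Pool.Agent.W_868bb7_h16.Sys

/-!
# Star Lemma, part A: averaging
-/

open Equiv Finset

namespace T7

variable {K : Type*} [Field K] {α : Type*} [Fintype α] [DecidableEq α]

omit [Fintype α] in
theorem StarLA_conj (g : Perm α) (x y : α) (f : PM α → K) :
    tr g (tr (swap x y) f) = tr (swap (g x) (g y)) (tr g f) := by
  rw [← tr_mul, ← tr_mul, Equiv.mul_swap_eq_swap_mul]

omit [Fintype α] in
theorem StarLA_aux {A : Finset α} {f : PM α → K} (h : InvOn A f) {j : α} (hj : j ∉ A) {l : α}
    (hl : l ∈ A) : tr (swap l j) (f + ∑ i ∈ A, tr (swap i j) f) =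
      f + ∑ i ∈ A, tr (swap i j) f := by
  have hlj : l ≠ j := fun e => hj (e ▸ hl)
  rw [map_add, map_sum, ← Finset.add_sum_erase A _ hl, ← Finset.add_sum_erase A _ hl]
  have h1 : tr (swap l j) (tr (swap l j) f) = f := by
    rw [← tr_mul, Equiv.swap_mul_self]
    rfl
  have h2 : ∀ i ∈ A.erase l, tr (swap l j) (tr (swap i j) f) = tr (swap i j) f := by
    intro i hi
    obtain ⟨hil, hiA⟩ := Finset.mem_erase.1 hi
    have hij : i ≠ j := fun e => hj (e ▸ hiA)
    have h3 := StarLA_conj (swap i j) l i f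
    rw [Equiv.swap_apply_of_ne_of_ne (Ne.symm hil) hlj, Equiv.swap_apply_left, h l hl i hiA] at h3
    exact h3.symm
  rw [h1, Finset.sum_congr rfl h2]
  abel

/-- `f + ∑_{i ∈ A} (i j) f` is invariant under `A ∪ {j}` if `f` is invariant under `A`.
(`(k j)(i j) = (i j)(k i)`, `(k l)(i j) = ((k l) i, j)(k l)`) -/
theorem InvOn.insert' {A : Finset α} {f : PM α → K} (h : InvOn A f) {j : α} (hj : j ∉ A) :
    InvOn (insert j A) (f + ∑ i ∈ A, tr (swap i j) f) := by
  intro k hk l hl
  rcases Finset.mem_insert.1 hk with rfl | hkA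
  · rcases Finset.mem_insert.1 hl with rfl | hlA
    · rw [Equiv.swap_self]
      rfl
    · rw [Equiv.swap_comm]
      exact StarLA_aux h hj hlA
  · rcases Finset.mem_insert.1 hl with rfl | hlA
    · exact StarLA_aux h hj hkA
    · rw [map_add, map_sum, h k hkA l hlA]
      congr 1
      have hjk : j ≠ k := fun e => hj (e ▸ hkA)
      have hjl : j ≠ l := fun e => hj (e ▸ hlA)
      have hmem : ∀ i, i ∈ A → swap k l i ∈ A := by
        intro i hi
        by_cases h1 : i = k
        · rw [h1, Equiv.swap_apply_left]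
          exact hlA
        · by_cases h2 : i = l
          · rw [h2, Equiv.swap_apply_right]
            exact hkA
          · rw [Equiv.swap_apply_of_ne_of_ne h1 h2]
            exact hi
      refine Finset.sum_bij' (fun i _ => swap k l i) (fun i _ => swap k l i)
        (fun i hi => hmem i hi) (fun i hi => hmem i hi) (fun i _ => Equiv.swap_apply_self k l i)
        (fun i _ => Equiv.swap_apply_self k l i) ?_
      intro i hi
      rw [StarLA_conj, Equiv.swap_apply_of_ne_of_ne hjk hjl, h k hkA l hlA]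

theorem InvOn.other {A B : Finset α} {f : PM α → K} (h : InvOn B f) {j : α}
    (hAB : Disjoint A B) (hj : j ∉ B) : InvOn B (f + ∑ i ∈ A, tr (swap i j) f) := by
  intro k hk l hl
  rw [map_add, map_sum, h k hk l hl]
  congr 1
  refine Finset.sum_congr rfl fun i hi => ?_
  have hjk : j ≠ k := fun e => hj (e ▸ hk)
  have hjl : j ≠ l := fun e => hj (e ▸ hl)
  have hik : i ≠ k := fun e => Finset.disjoint_left.1 hAB hi (e ▸ hk)
  have hil : i ≠ l := fun e => Finset.disjoint_left.1 hAB hi (e ▸ hl)
  rw [StarLA_conj, Equiv.swap_apply_of_ne_of_ne hjk hjl, Equiv.swap_apply_of_ne_of_ne hik hil,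
    h k hk l hl]

end T7
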