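import Pool.Agent.W_868bb7_h16.StarLA
import Pool.Agent.W_868bb7_h16.StarLB

/-!
# Star Lemma, part C: the maximal size
-/

open Equiv Finset

namespace T7

variable {K : Type*} [Field K] [CharZero K] {α : Type*} [Fintype α] [DecidableEq α]

/-- The size `c` of a maximal set: `n = c (c - κ)`. -/
theorem StarMod.exists_max {κ : K} {W : Submodule K (PM α → K)} (hW : StarMod κ W) (hne : W ≠ ⊥)
    [Nonempty α] : ∃ c : ℕ, 1 ≤ c ∧ (Fintype.card α : K) = c * (c - κ) ∧
      ∀ (A : Finset α), ∀ f ∈ W, f ≠ 0 → InvOn A f → A.card ≤ c := by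
  classical
  obtain ⟨f₀, hf₀, hf₀'⟩ := (Submodule.ne_bot_iff W).1 hne
  obtain ⟨x₀⟩ := ‹Nonempty α›
  set P : Finset α → Prop := fun A => ∃ f ∈ W, f ≠ 0 ∧ InvOn A f with hP
  have hsing : P {x₀} := by
    refine ⟨f₀, hf₀, hf₀', fun i hi j hj => ?_⟩
    rw [mem_singleton] at hi hj
    subst hi hj
    rw [swap_self, tr_refl]
  obtain ⟨A, hA, hmax⟩ := Finset.exists_max_image (univ.filter P) Finset.card
    ⟨{x₀}, mem_filter.2 ⟨mem_univ _, hsing⟩⟩
  obtain ⟨f, hf, hf0, hAf⟩ := (mem_filter.1 hA).2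
  refine ⟨A.card, ?_, ?_, fun B g hg hg0 hBg => hmax B (mem_filter.2 ⟨mem_univ _, g, hg, hg0, hBg⟩)⟩
  · have := hmax {x₀} (mem_filter.2 ⟨mem_univ _, hsing⟩)
    rwa [card_singleton] at this
  · have h1 := hW.count (t := 0) (fun _ => 0) f hf hf0 (fun s hs => absurd hs (Nat.not_lt_zero s)) A
      (fun _ _ => le_rfl) hAf (fun j _ hj => by
        by_contra h0
        have h2 : f + ∑ i ∈ A, tr (swap i j) f ∈ W :=
          W.add_mem hf (W.sum_mem fun i _ => hW.stable i j f hf)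
        have h3 := hmax (insert j A) (mem_filter.2 ⟨mem_univ _, _, h2, h0, hAf.insert' hj⟩)
        rw [card_insert_of_notMem hj] at h3
        omega)
    rw [Finset.filter_true_of_mem (fun _ _ => le_rfl), card_univ, Nat.cast_zero, sub_zero] at h1
    exact h1

end T7
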