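import Pool.Agent.W_868bb7_h16.Match

/-!
# Relation systems, star operators, vectors of rectangular type: definitions (T7, MP_868bb7_ag)
-/

open Equiv Finset

namespace T7

/-- A relation system with parameter `δ`: for every finite type `α` a space of formal
combinations of perfect matchings of `α`, stable under bijections, under adding a chord and
under the contraction (with parameter `δ`) of two points, and zero for the empty type. -/
structure Sys (K : Type*) [Field K] (δ : K) where
  R : ∀ (α : Type) [Finite α], Submodule K (PM α → K)
  map : ∀ {α β : Type} [Finite α] [Finite β] (e : α ≃ β) {f : PM α → K}, f ∈ R α → tr e f ∈ R β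
  up : ∀ {α : Type} [Finite α] {f : PM α → K}, f ∈ R α → T7.up f ∈ R (α ⊕ Bool)
  down : ∀ {α : Type} [Fintype α] [DecidableEq α] {f : PM (α ⊕ Bool) → K},
    f ∈ R (α ⊕ Bool) → dn δ f ∈ R α
  zero : ∀ {α : Type} [Finite α] [IsEmpty α], R α = ⊥

variable {K : Type*} [Field K]
variable {α β γ S : Type*}

/-- the sum of all transpositions that move `i` -/
def Y [Fintype α] [DecidableEq α] (i : α) (f : PM α → K) : PM α → K :=
  ∑ k ∈ univ.erase i, tr (swap i k) f

/-- contract the points `i ≠ j` and put the chord `{i, j}` back -/
def Dop [Fintype α] [DecidableEq α] (δ : K) (i j : α) (f : PM α → K) : PM α → K := fun m =>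
  if m i = j then (δ - 1) * f m + Y i f m else 0

/-- invariance under all permutations of `A` (it is enough to say it for the transpositions) -/
def InvOn [DecidableEq α] (A : Finset α) (f : PM α → K) : Prop :=
  ∀ i ∈ A, ∀ j ∈ A, tr (swap i j) f = f

/-- `v` is of block type with respect to `b : α → S` (the blocks are the fibres of `b`): it is
invariant under the permutations that preserve the blocks and
`v + ∑_{i ∈ block of i₀} (i j) v = 0` for every `j` outside the block of `i₀`. -/
structure IsType [Fintype α] [DecidableEq α] [DecidableEq S] (b : α → S) (v : PM α → K) :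
    Prop where
  inv : ∀ i j, b i = b j → tr (swap i j) v = v
  rel : ∀ i₀ j, b i₀ ≠ b j → v + ∑ i ∈ univ.filter (fun i => b i = b i₀), tr (swap i j) v = 0

/-- A star module: stable under permutations, every `Y i` acts as the scalar `κ`. -/
structure StarMod [Fintype α] [DecidableEq α] (κ : K) (W : Submodule K (PM α → K)) : Prop where
  stable : ∀ i j, ∀ f ∈ W, tr (swap i j) f ∈ W
  star : ∀ i, ∀ f ∈ W, Y i f = κ • f

end T7
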