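import Pool.Agent.W_868bb7_h16.Sys

/-!
# Vectors of block type: determined by the inside values
-/

open Equiv Finset

namespace T7

variable {K : Type*} [Field K] {α S : Type*} [Fintype α] [DecidableEq α]
  [DecidableEq S]

/-- If all the values at the matchings with all chords inside blocks lie in `V`, then all values
do. Strong induction on the number of points `x` with `b (m x) ≠ b x`. If `{j, i₀}` is a chord with
`b j ≠ b i₀`, the relation for the block of `i₀` and `j` at `m` reads
`(2 + #(inside points of the block)) v m + ∑ (v at matchings with more inside points) = 0`. -/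
theorem IsType.mem_of_inside {b : α → S} {v : PM α → K} (hv : IsType b v) (V : AddSubgroup K)
    (hV : ∀ (n : ℕ) (x : K), n ≠ 0 → (n : K) * x ∈ V → x ∈ V)
    (h : ∀ m : PM α, (∀ x, b (m x) = b x) → v m ∈ V) (m : PM α) : v m ∈ V := by
  -- induction on the number of outside points
  obtain ⟨n, hn⟩ : ∃ n, (univ.filter (fun x => b (m x) ≠ b x)).card = n := ⟨_, rfl⟩
  induction n using Nat.strong_induction_on generalizing m with
  | _ n ih =>
  by_cases hin : ∀ x, b (m x) = b x
  · exact h m hin
  push Not at hin
  obtain ⟨i₀, hi₀⟩ := hin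
  set j := m i₀ with hj
  have hmj : m j = i₀ := by rw [hj, m.inv]
  have hji : j ≠ i₀ := m.ne i₀
  set A := univ.filter (fun i => b i = b i₀) with hA
  have hjA : j ∉ A := by simp [hA, hi₀]
  have hrel := congrFun (hv.rel i₀ j (Ne.symm hi₀)) m
  simp only [Pi.add_apply, Finset.sum_apply, Pi.zero_apply] at hrel
  rw [← hA] at hrel
  -- split the block
  have hval : ∀ i ∈ A, b (m i) = b i₀ ∨ i = i₀ → tr (swap i j) v m = v m := by
    intro i hi hor
    have hbi : b i = b i₀ := by simpa [hA] using hi
    rcases eq_or_ne i i₀ with rfl | hne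
    · rw [tr_apply]
      congr 1
      ext x
      simp only [PM.map_apply, Equiv.symm_swap]
      rcases eq_or_ne x i with rfl | hx1
      · rw [swap_apply_left, hmj, swap_apply_left]
      · rcases eq_or_ne x j with rfl | hx2
        · rw [swap_apply_right, ← hj, swap_apply_right, hmj]
        · rw [swap_apply_of_ne_of_ne hx1 hx2, swap_apply_of_ne_of_ne]
          · intro h1; exact hx2 (by rw [← m.inv x, h1])
          · intro h1; apply hx1; rw [← m.inv x, h1, hmj]
    · have hmi : b (m i) = b i₀ := hor.resolve_right hne
      -- `(i j) m = (m i, i₀) m`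
      have hne1 : m i ≠ i := m.ne i
      have hij : i ≠ j := by
        rintro rfl; exact hjA hi
      have hmi0 : m i ≠ i₀ := by
        intro h1; apply hij; rw [← m.inv i, h1]
      have hmij : m i ≠ j := by
        intro h1; apply hi₀; rw [← h1, hmi]
      have key : PM.map (swap i j).symm m = PM.map (swap (m i) i₀).symm m := by
        ext x
        simp only [PM.map_apply, Equiv.symm_swap]
        rcases eq_or_ne x i with rfl | hx1
        · rw [swap_apply_left, hmj, swap_apply_of_ne_of_ne (Ne.symm hne) (Ne.symm hji),
            swap_apply_of_ne_of_ne (Ne.symm hne1) hne, swap_apply_left]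
        rcases eq_or_ne x j with rfl | hx2
        · rw [swap_apply_right, swap_apply_of_ne_of_ne hne1 hmij,
            swap_apply_of_ne_of_ne (Ne.symm hmij) hji, hmj, swap_apply_right]
        rcases eq_or_ne x i₀ with rfl | hx3
        · rw [swap_apply_of_ne_of_ne (Ne.symm hne) hx2, ← hj, swap_apply_right, swap_apply_right,
            m.inv, swap_apply_of_ne_of_ne (Ne.symm hne1) hne]
        rcases eq_or_ne x (m i) with rfl | hx4
        · rw [swap_apply_of_ne_of_ne hne1 hmij, m.inv, swap_apply_left, swap_apply_left, ← hj,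
            swap_apply_of_ne_of_ne (Ne.symm hmij) hji]
        · rw [swap_apply_of_ne_of_ne hx1 hx2, swap_apply_of_ne_of_ne hx4 hx3,
            swap_apply_of_ne_of_ne, swap_apply_of_ne_of_ne]
          · intro h1; apply hx1; exact m.inj h1
          · intro h1; apply hx2; rw [← m.inv x, h1]
          · intro h1; apply hx4; rw [← h1, m.inv]
          · intro h1; apply hx3; rw [← m.inv x, h1, hmj]
      have h2 := congrFun (hv.inv (m i) i₀ hmi) m
      rw [tr_apply] at h2 ⊢
      rw [key, h2]
  have hless : ∀ i ∈ A, ¬ (b (m i) = b i₀ ∨ i = i₀) → tr (swap i j) v m ∈ V := by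
    intro i hi hor
    push Not at hor
    obtain ⟨hmi, hne⟩ := hor
    have hbi : b i = b i₀ := by simpa [hA] using hi
    rw [tr_apply]
    refine ih _ ?_ _ rfl
    rw [← hn]
    apply Finset.card_lt_card
    have hij : i ≠ j := by
      rintro rfl; exact hjA hi
    have hmi0 : m i ≠ i₀ := by
      intro h1; apply hij; rw [← m.inv i, h1]
    have hmij : m i ≠ j := by
      intro h1; apply hne; exact m.inj h1
    have hne1 : m i ≠ i := m.ne i
    rw [Finset.ssubset_iff_of_subset]
    · refine ⟨i, by simp [hbi, hmi], ?_⟩
      simp only [mem_filter, mem_univ, true_and, not_not, PM.map_apply,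
        Equiv.symm_swap]
      rw [swap_apply_left, hmj, swap_apply_of_ne_of_ne (Ne.symm hne) (Ne.symm hji), hbi]
    · intro x
      simp only [mem_filter, mem_univ, true_and, PM.map_apply,
        Equiv.symm_swap]
      intro hx
      rcases eq_or_ne x i with rfl | hx1
      · rw [swap_apply_left, hmj, swap_apply_of_ne_of_ne (Ne.symm hne) (Ne.symm hji)] at hx
        exact absurd hbi.symm hx
      rcases eq_or_ne x j with rfl | hx2
      · rw [hmj]; exact Ne.symm hi₀
      rcases eq_or_ne x i₀ with rfl | hx3
      · exact hi₀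
      rcases eq_or_ne x (m i) with rfl | hx4
      · rw [m.inv, hbi]; exact Ne.symm hmi
      rw [swap_apply_of_ne_of_ne hx1 hx2, swap_apply_of_ne_of_ne] at hx
      · exact hx
      · intro h1; apply hx4; rw [← h1, m.inv]
      · intro h1; apply hx3; rw [← m.inv x, h1, hmj]
  -- conclusion
  rw [← Finset.sum_filter_add_sum_filter_not A (fun i => b (m i) = b i₀ ∨ i = i₀)] at hrel
  rw [Finset.sum_congr rfl (fun i hi => hval i (Finset.mem_filter.1 hi).1
    (Finset.mem_filter.1 hi).2), Finset.sum_const, nsmul_eq_mul] at hrel
  refine hV (1 + (A.filter (fun i => b (m i) = b i₀ ∨ i = i₀)).card) _ (by omega) ?_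
  have h3 : ((1 + (A.filter (fun i => b (m i) = b i₀ ∨ i = i₀)).card : ℕ) : K) * v m =
      - ∑ i ∈ A.filter (fun i => ¬ (b (m i) = b i₀ ∨ i = i₀)), tr (swap i j) v m := by
    push_cast
    linear_combination hrel
  rw [h3]
  exact V.neg_mem (V.sum_mem fun i hi => hless i (Finset.mem_filter.1 hi).1
    (Finset.mem_filter.1 hi).2)

end T7
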